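import Pool.Agent.Lib_helper90.Chrom.Cross
import Pool.Agent.Lib_helper88.Chrom.Product

/-!
# The class NC

`A : Finset V → Prop` is a complex of allowed blocks (faces), `gr A` the graph of the forbidden
pairs.  `NC A`: faces have `c ≤ 0`, minimal nonfaces of size at least three have `c ≥ 0`, and
disjoint ones do not cross.
-/

open Finset

namespace Pool.Agent.Chrom

variable {V : Type*} [Fintype V] [DecidableEq V]

set_option linter.unusedSectionVars false

/-- the graph of the forbidden pairs -/
def gr (A : Finset V → Prop) : SimpleGraph V where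
  Adj u v := u ≠ v ∧ ¬ A {u, v}
  symm := ⟨fun u v h => ⟨h.1.symm, by rw [Finset.pair_comm]; exact h.2⟩⟩
  loopless := ⟨fun _ h => h.1 rfl⟩

lemma gr_adj {A : Finset V → Prop} {u v : V} : (gr A).Adj u v ↔ u ≠ v ∧ ¬ A {u, v} := Iff.rfl

/-- minimal nonfaces -/
def MinNF (A : Finset V → Prop) (f : Finset V) : Prop := ¬ A f ∧ ∀ X, X ⊂ f → A X

/-- the class NC -/
structure NC (A : Finset V → Prop) : Prop where
  down : ∀ S T : Finset V, S ⊆ T → A T → A S
  sing : ∀ v : V, A {v}
  two : 2 ≤ Fintype.card V
  conn : (gr A).Preconnected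
  face : ∀ S : Finset V, A S → S.Nonempty → cc (gr A) S ≤ 0
  nonface : ∀ f : Finset V, MinNF A f → 3 ≤ f.card → 0 ≤ cc (gr A) f
  nocross : ∀ f g : Finset V, MinNF A f → MinNF A g → 3 ≤ f.card → 3 ≤ g.card → Disjoint f g →
    (meetComps (gr A) f g).card ≤ 1

/-- tight faces -/
structure Tight (A : Finset V → Prop) (T : Finset V) : Prop where
  face : A T
  two : 2 ≤ T.card
  zero : cc (gr A) T = 0

/-- `T` is crossed by a disjoint minimal nonface -/
def Crossed (A : Finset V → Prop) (T : Finset V) : Prop :=
  ∃ f, MinNF A f ∧ 3 ≤ f.card ∧ Disjoint T f ∧ 2 ≤ (meetComps (gr A) T f).card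

variable {A : Finset V → Prop} {S T f g X C : Finset V} {a b u v w : V}

lemma exists_minNF (h : ¬ A S) : ∃ f, f ⊆ S ∧ MinNF A f := by
  induction S using Finset.strongInduction with
  | H S ih =>
    by_cases h1 : ∀ X, X ⊂ S → A X
    · exact ⟨S, Subset.refl _, h, h1⟩
    · push Not at h1
      obtain ⟨X, hX, hAX⟩ := h1
      obtain ⟨f, hf, hf'⟩ := ih X hX hAX
      exact ⟨f, hf.trans hX.subset, hf'⟩

namespace NC

lemma empty (h : NC A) : A ∅ := by
  have : Nonempty V := Fintype.card_pos_iff.1 (by have := h.two; omega)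
  obtain ⟨v⟩ := this
  exact h.down _ _ (empty_subset _) (h.sing v)

lemma not_adj (h : NC A) (hS : A S) (hu : u ∈ S) (hv : v ∈ S) : ¬ (gr A).Adj u v := by
  intro hadj
  refine hadj.2 (h.down _ _ ?_ hS)
  intro w hw
  rcases mem_insert.1 hw with rfl | hw
  · exact hu
  · rw [mem_singleton.1 hw]; exact hv

/-- minimal nonfaces have at least two elements -/
lemma two_le_card (h : NC A) (hf : MinNF A f) : 2 ≤ f.card := by
  by_contra hlt
  have h1 : f.card = 0 ∨ f.card = 1 := by omega
  rcases h1 with h1 | h1
  · rw [card_eq_zero] at h1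
    subst h1
    exact hf.1 h.empty
  · obtain ⟨v, rfl⟩ := card_eq_one.1 h1
    exact hf.1 (h.sing v)

/-- a minimal nonface with two elements is an edge -/
lemma pair_of_card_two (hf : MinNF A f) (h2 : f.card = 2) :
    ∃ u v, f = {u, v} ∧ (gr A).Adj u v := by
  obtain ⟨u, v, huv, rfl⟩ := card_eq_two.1 h2
  exact ⟨u, v, rfl, huv, hf.1⟩

lemma cc_subset (h : NC A) (hS : A S) : ∀ X, X ⊂ S → X.Nonempty → cc (gr A) X ≤ 0 :=
  fun X hX hne => h.face X (h.down _ _ hX.subset hS) hne

lemma cc_ssubset (h : NC A) (hf : MinNF A f) : ∀ X, X ⊂ f → X.Nonempty → cc (gr A) X ≤ 0 :=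
  fun X hX hne => h.face X (hf.2 X hX) hne

end NC

/-- symmetric form of crossing -/
lemma meet_le_of_meet_le (h : NC A) (hT0 : 0 ≤ cc (gr A) T)
    (hpT : ∀ X, X ⊂ T → X.Nonempty → cc (gr A) X ≤ 0) (hS : S.Nonempty) (hd : Disjoint S T)
    (hle : (meetComps (gr A) T S).card ≤ 1) : (meetComps (gr A) S T).card ≤ 1 := by
  by_contra hlt
  have := cross_mutual h.conn hd hS hT0 hpT (by omega)
  omega

/-- all elements of `X` lie in one component of `G - S` -/
lemma reachable_of_meet_le {G : SimpleGraph V} (hd : Disjoint S X)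
    (hle : (meetComps G S X).card ≤ 1) (hu : u ∈ X) (hv : v ∈ X) : (del G S).Reachable u v := by
  have h1 : comp G S u ∈ meetComps G S X := by
    refine mem_meetComps.2 ⟨comp_mem_comps (Finset.disjoint_right.1 hd hu), ?_⟩
    rw [Finset.not_disjoint_iff]
    exact ⟨u, self_mem_comp u, hu⟩
  have h2 : comp G S v ∈ meetComps G S X := by
    refine mem_meetComps.2 ⟨comp_mem_comps (Finset.disjoint_right.1 hd hv), ?_⟩
    rw [Finset.not_disjoint_iff]
    exact ⟨v, self_mem_comp v, hv⟩
  have h3 := card_le_one.1 hle _ h1 _ h2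
  rw [← mem_comp, h3]
  exact self_mem_comp v

lemma meet_le_of_reachable {G : SimpleGraph V}
    (h : ∀ u ∈ X, ∀ v ∈ X, (del G S).Reachable u v) : (meetComps G S X).card ≤ 1 := by
  rw [card_le_one]
  intro C hC D hD
  obtain ⟨hC1, hC2⟩ := mem_meetComps.1 hC
  obtain ⟨hD1, hD2⟩ := mem_meetComps.1 hD
  rw [Finset.not_disjoint_iff] at hC2 hD2
  obtain ⟨u, hu, huX⟩ := hC2
  obtain ⟨v, hv, hvX⟩ := hD2
  have h1 : v ∈ C := by
    rw [← comp_eq_of_mem_comps hC1 hu, mem_comp]
    exact h u huX v hvX
  exact comps_eq_of_mem hC1 hD1 h1 hv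

/-! ### Components after adding edges -/

lemma comp_mono_graph {G G' : SimpleGraph V} (h : G ≤ G') (S : Finset V) (v : V) :
    comp G S v ⊆ comp G' S v := by
  intro w hw
  rw [mem_comp] at hw ⊢
  refine hw.mono ?_
  intro x y hxy
  exact ⟨h hxy.1, hxy.2⟩

/-- adding edges does not increase the number of components -/
lemma kk_anti_graph {G G' : SimpleGraph V} (h : G ≤ G') (S : Finset V) : kk G' S ≤ kk G S := by
  classical
  have hsub : comps G' S ⊆ (comps G S).image fun C => if hC : C.Nonempty
      then comp G' S hC.choose else ∅ := by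
    intro D hD
    obtain ⟨v, hv, rfl⟩ := mem_comps.1 hD
    rw [mem_image]
    refine ⟨comp G S v, comp_mem_comps hv, ?_⟩
    have hne : (comp G S v).Nonempty := ⟨v, self_mem_comp v⟩
    rw [dif_pos hne]
    exact comp_eq_of_mem (comp_mono_graph h S v hne.choose_spec)
  exact (card_le_card hsub).trans card_image_le

lemma cc_anti_graph {G G' : SimpleGraph V} (h : G ≤ G') (S : Finset V) : cc G' S ≤ cc G S := by
  have := kk_anti_graph h S
  unfold cc
  have h' : (kk G' S : ℤ) ≤ kk G S := by exact_mod_cast this
  linarith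

/-- if all new edges join vertices which are already connected, nothing changes -/
lemma comps_eq_of_reachable {G G' : SimpleGraph V} (h : G ≤ G') (S : Finset V)
    (hr : ∀ u v, (del G' S).Adj u v → (del G S).Reachable u v) : comps G' S = comps G S := by
  have hc : ∀ v, comp G' S v = comp G S v := by
    intro v
    refine Subset.antisymm ?_ (comp_mono_graph h S v)
    intro w hw
    rw [mem_comp] at hw ⊢
    obtain ⟨p⟩ := hw
    induction p with
    | nil => exact SimpleGraph.Reachable.refl _
    | @cons x y z hxy p ih => exact (hr x y hxy).trans ih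
  ext C
  rw [mem_comps, mem_comps]
  simp only [hc]

/-! ### The avoid operation -/

lemma gr_mono {A B : Finset V → Prop} (h : ∀ S, B S → A S) : gr A ≤ gr B := by
  intro u v huv
  exact ⟨huv.1, fun hB => huv.2 (h _ hB)⟩

lemma pair_subset_iff : ({u, v} : Finset V) ⊆ S ↔ u ∈ S ∧ v ∈ S := by
  rw [insert_subset_iff, singleton_subset_iff]

lemma gr_avoid_adj : (gr (avoid A T)).Adj u v ↔ (gr A).Adj u v ∨ (u ≠ v ∧ T ⊆ {u, v}) := by
  rw [gr_adj, gr_adj]
  unfold avoid
  tauto

lemma minNF_avoid (hf : MinNF (avoid A T) f) : f = T ∨ (MinNF A f ∧ ¬ T ⊆ f) := by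
  by_cases hT : T ⊆ f
  · left
    by_contra hne
    have hss : T ⊂ f := Finset.ssubset_iff_subset_ne.2 ⟨hT, fun h => hne h.symm⟩
    exact (hf.2 T hss).2 (Subset.refl T)
  · right
    refine ⟨⟨fun hA => hf.1 ⟨hA, hT⟩, fun X hX => (hf.2 X hX).1⟩, hT⟩

/-- in the graph of `avoid A T` the components of `G - f` are the old ones, for every minimal
nonface `f` which does not cross `T` -/
lemma comps_avoid (h : NC A) (hT : Tight A T) (hun : ¬ Crossed A T) (hf : MinNF A f)
    (h3 : 3 ≤ f.card) : comps (gr (avoid A T)) f = comps (gr A) f := by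
  refine comps_eq_of_reachable (gr_mono fun S hS => hS.1) f ?_
  rintro u v ⟨huv, hu, hv⟩
  rw [gr_avoid_adj] at huv
  rcases huv with huv | ⟨hne, hTs⟩
  · exact SimpleGraph.Adj.reachable ⟨huv, hu, hv⟩
  · have hTeq : T = {u, v} := by
      refine Finset.eq_of_subset_of_card_le hTs ?_
      rw [card_pair hne]; exact hT.two
    have hd : Disjoint f T := by
      rw [hTeq, Finset.disjoint_right]
      intro w hw
      rcases mem_insert.1 hw with rfl | hw
      · exact hu
      · rw [mem_singleton.1 hw]; exact hv
    have hle : (meetComps (gr A) f T).card ≤ 1 := by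
      refine meet_le_of_meet_le h hT.zero.ge (h.cc_subset hT.face) ?_ hd ?_
      · exact card_pos.1 (by omega)
      · by_contra hlt
        exact hun ⟨f, hf, h3, hd.symm, by omega⟩
    have hu' : u ∈ T := by rw [hTeq]; simp
    have hv' : v ∈ T := by rw [hTeq]; simp
    exact reachable_of_meet_le hd hle hu' hv'

lemma meetComps_congr {G G' : SimpleGraph V} (h : comps G S = comps G' S) :
    meetComps G S X = meetComps G' S X := by
  unfold meetComps
  rw [h]

/-- **removing an uncrossed tight face keeps the class** -/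
theorem NC.avoid (h : NC A) (hT : Tight A T) (hun : ¬ Crossed A T) : NC (avoid A T) where
  down := by
    rintro S S' hSS ⟨h1, h2⟩
    exact ⟨h.down _ _ hSS h1, fun h3 => h2 (h3.trans hSS)⟩
  sing := by
    intro v
    refine ⟨h.sing v, fun hs => ?_⟩
    have := card_le_card hs
    rw [card_singleton] at this
    have := hT.two
    omega
  two := h.two
  conn := by
    intro u v
    exact (h.conn u v).mono (gr_mono fun S hS => hS.1)
  face := by
    intro S hS hne
    exact (cc_anti_graph (gr_mono fun S hS => hS.1) S).trans (h.face S hS.1 hne)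
  nonface := by
    intro f hf h3
    rcases minNF_avoid hf with rfl | ⟨hf', _⟩
    · have : comps (gr (Chrom.avoid A f)) f = comps (gr A) f := by
        refine comps_eq_of_reachable (gr_mono fun S hS => hS.1) f ?_
        rintro u v ⟨huv, hu, hv⟩
        rw [gr_avoid_adj] at huv
        rcases huv with huv | ⟨_, hTs⟩
        · exact SimpleGraph.Adj.reachable ⟨huv, hu, hv⟩
        · exfalso
          have h1 := card_le_card hTs
          have h2 : ({u, v} : Finset V).card ≤ 2 := card_le_two
          omega
      unfold cc kk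
      rw [this]
      exact hT.zero.ge
    · unfold cc kk
      rw [comps_avoid h hT hun hf' h3]
      exact h.nonface f hf' h3
  nocross := by
    intro f g hf hg h3 h3' hd
    have key : ∀ f, 3 ≤ f.card → f = T ∨ (MinNF A f ∧ ¬ T ⊆ f) →
        comps (gr (Chrom.avoid A T)) f = comps (gr A) f := by
      intro f h3 hf
      rcases hf with rfl | ⟨hf', _⟩
      · refine comps_eq_of_reachable (gr_mono fun S hS => hS.1) f ?_
        rintro u v ⟨huv, hu, hv⟩
        rw [gr_avoid_adj] at huv
        rcases huv with huv | ⟨_, hTs⟩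
        · exact SimpleGraph.Adj.reachable ⟨huv, hu, hv⟩
        · exfalso
          have h1 := card_le_card hTs
          have h2 : ({u, v} : Finset V).card ≤ 2 := card_le_two
          omega
      · exact comps_avoid h hT hun hf' h3
    rw [meetComps_congr (key f h3 (minNF_avoid hf))]
    rcases minNF_avoid hf with rfl | ⟨hf', _⟩
    · rcases minNF_avoid hg with rfl | ⟨hg', _⟩
      · exfalso
        have h0 : g = ∅ := by
          rw [disjoint_self_iff_empty] at hd
          exact hd
        rw [h0] at h3
        simp at h3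
      · by_contra hlt
        exact hun ⟨g, hg', h3', hd, by omega⟩
    · rcases minNF_avoid hg with rfl | ⟨hg', _⟩
      · refine meet_le_of_meet_le h hT.zero.ge (h.cc_subset hT.face) (card_pos.1 (by omega)) hd ?_
        by_contra hlt
        exact hun ⟨f, hf', h3, hd.symm, by omega⟩
      · exact h.nocross f g hf' hg' h3 h3' hd

/-! ### Spread nonfaces at a maximal uncrossed tight face -/

/-- the union of a tight face with the part of a nonface in one component is still independent
and `c(T ∪ f) ≥ 0` -/
lemma cc_union_nonneg (h : NC A) (hT : Tight A T) (hf : MinNF A f) (h3 : 3 ≤ f.card)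
    (hint : (T ∩ f).Nonempty) (hne : ¬ f ⊆ T)
    (hadj : ∀ u ∈ T \ f, ∀ v ∈ f \ T, ¬ (gr A).Adj u v) : 0 ≤ cc (gr A) (T ∪ f) := by
  have h1 := cc_supermodular (G := gr A) (S := T) (T := f) hadj
  have h2 : cc (gr A) (T ∩ f) ≤ 0 := by
    refine h.cc_ssubset hf _ ?_ hint
    rw [Finset.ssubset_iff_subset_ne]
    refine ⟨inter_subset_right, fun heq => hne ?_⟩
    rw [← heq]; exact inter_subset_left
  have h4 := h.nonface f hf h3
  have h5 := hT.zero
  linarith

/-- **helper75's lemma**: at a maximal uncrossed tight face every spread nonface is redundant -/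
theorem redundant_of_maximal (h : NC A) (hT : Tight A T) (hun : ¬ Crossed A T)
    (hmax : ∀ T', Tight A T' → T ⊂ T' → Crossed A T') (hf : MinNF A f)
    (hsp : 2 ≤ (meetComps (gr A) T f).card) : ∃ C ∈ comps (gr A) T, ¬ A (T ∪ (f ∩ C)) := by
  by_contra hno
  push Not at hno
  have hmeet : ∀ C ∈ meetComps (gr A) T f, (f ∩ C).Nonempty := by
    intro C hC
    obtain ⟨_, hC2⟩ := mem_meetComps.1 hC
    rw [Finset.not_disjoint_iff] at hC2
    obtain ⟨v, hv, hv'⟩ := hC2
    exact ⟨v, mem_inter.2 ⟨hv', hv⟩⟩
  obtain ⟨C, hC, C', hC', hCC⟩ := one_lt_card.1 (show 1 < (meetComps (gr A) T f).card by omega)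
  have hC1 := (mem_meetComps.1 hC).1
  have hC1' := (mem_meetComps.1 hC').1
  obtain ⟨x, hx⟩ := hmeet C hC
  obtain ⟨y, hy⟩ := hmeet C' hC'
  rw [mem_inter] at hx hy
  have hxy : x ≠ y := by
    rintro rfl
    exact hCC (comps_eq_of_mem hC1 hC1' hx.2 hy.2)
  have hxT : x ∉ T := Finset.disjoint_left.1 (comps_disjoint_S hC1) hx.2
  have hyT : y ∉ T := Finset.disjoint_left.1 (comps_disjoint_S hC1') hy.2
  -- `f` has at least three elements
  have h3 : 3 ≤ f.card := by
    have h2 := h.two_le_card hf
    by_contra hlt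
    obtain ⟨u, v, rfl, huv⟩ := NC.pair_of_card_two hf (by omega)
    have hsub : ∀ z ∈ ({u, v} : Finset V), z = x ∨ z = y := by
      have h4 : ({x, y} : Finset V) = {u, v} := by
        refine Finset.eq_of_subset_of_card_le (pair_subset_iff.2 ⟨hx.1, hy.1⟩) ?_
        rw [card_pair hxy]; exact card_le_two
      intro z hz
      rw [← h4] at hz
      simpa using hz
    have hadj : (gr A).Adj x y := by
      rcases hsub u (by simp) with rfl | rfl <;> rcases hsub v (by simp) with rfl | rfl
      · exact absurd huv ((gr A).loopless.irrefl _)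
      · exact huv
      · exact huv.symm
      · exact absurd huv ((gr A).loopless.irrefl _)
    have : y ∈ C := comps_closed hC1 hx.2 hadj hyT
    exact hCC (comps_eq_of_mem hC1 hC1' this hy.2)
  -- `f` meets `T`
  have hint : (T ∩ f).Nonempty := by
    by_contra hemp
    rw [Finset.not_nonempty_iff_eq_empty, ← disjoint_iff_inter_eq_empty] at hemp
    exact hun ⟨f, hf, h3, hemp, hsp⟩
  have hnsub : ¬ f ⊆ T := fun hs => hxT (hs hx.1)
  have hadj : ∀ u ∈ T \ f, ∀ v ∈ f \ T, ¬ (gr A).Adj u v := by
    intro u hu v hv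
    rw [mem_sdiff] at hu hv
    obtain ⟨D, hD, hvD⟩ := exists_comps (G := gr A) (S := T) hv.2
    exact h.not_adj (hno D hD) (mem_union_left _ hu.1)
      (mem_union_right _ (mem_inter.2 ⟨hv.1, hvD⟩))
  have h0 := cc_union_nonneg h hT hf h3 hint hnsub hadj
  -- additivity
  have hdX : Disjoint T (f \ T) := Finset.disjoint_sdiff
  have e1 : T ∪ f = T ∪ (f \ T) := by
    ext z; simp only [mem_union, mem_sdiff]; tauto
  have hpart : ∀ D ∈ comps (gr A) T, (f \ T) ∩ D = f ∩ D := by
    intro D hD
    ext z
    simp only [mem_inter, mem_sdiff]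
    constructor
    · rintro ⟨⟨h1, _⟩, h2⟩; exact ⟨h1, h2⟩
    · rintro ⟨h1, h2⟩
      exact ⟨⟨h1, Finset.disjoint_left.1 (comps_disjoint_S hD) h2⟩, h2⟩
  rw [e1, cc_union_eq_of_tight hdX hT.zero] at h0
  have hterm : ∀ D ∈ comps (gr A) T, cc (gr A) (T ∪ (f \ T) ∩ D) ≤ 0 := by
    intro D hD
    rw [hpart D hD]
    refine h.face _ (hno D hD) ?_
    exact (card_pos.1 (by have := hT.two; omega)).mono subset_union_left
  have hzero := (sum_eq_zero_iff_of_nonpos hterm).1 (le_antisymm (sum_nonpos hterm) h0) C hC1
  rw [hpart C hC1] at hzero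
  -- the bigger tight face is crossed
  have htight : Tight A (T ∪ (f ∩ C)) :=
    ⟨hno C hC1, hT.two.trans (card_le_card subset_union_left), hzero⟩
  have hss : T ⊂ T ∪ (f ∩ C) := by
    rw [Finset.ssubset_iff_subset_ne]
    refine ⟨subset_union_left, fun heq => hxT ?_⟩
    rw [heq]
    exact mem_union_right _ (mem_inter.2 hx)
  obtain ⟨g, hg, hg3, hgd, hgm⟩ := hmax _ htight hss
  have hgT : Disjoint T g := hgd.mono_left subset_union_left
  have hgfC : Disjoint (f ∩ C) g := hgd.mono_left subset_union_right
  have hgne : g.Nonempty := card_pos.1 (by omega)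
  have hTne : T.Nonempty := hint.mono inter_subset_left
  have hT1 : (meetComps (gr A) T g).card ≤ 1 := by
    by_contra hlt
    exact hun ⟨g, hg, hg3, hgT, by omega⟩
  -- `g ⊆ C`
  have hgC : g ⊆ C := by
    by_contra hnot
    obtain ⟨z, hz, hzC⟩ := Finset.not_subset.1 hnot
    obtain ⟨D, hD, hzD⟩ := exists_comps (G := gr A) (S := T) (Finset.disjoint_right.1 hgT hz)
    have hDC : D ≠ C := fun he => hzC (he ▸ hzD)
    have hgD : g ⊆ D := by
      intro z' hz'
      rw [← comp_eq_of_mem_comps hD hzD, mem_comp]
      exact reachable_of_meet_le hgT hT1 hz hz'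
    have hD' : D ∈ comps (gr A) (T ∪ (f ∩ C)) := by
      have := inComps_of_disjoint hD (subset_union_left : T ⊆ T ∪ (f ∩ C)) (by
        rw [disjoint_union_right]
        exact ⟨comps_disjoint_S hD, (comps_disjoint hD hC1 hDC).mono_right inter_subset_right⟩)
      have hmem : D ∈ inComps (gr A) (T ∪ (f ∩ C)) D := by rw [this]; exact mem_singleton_self D
      exact (mem_inComps.1 hmem).1
    have hle : (meetComps (gr A) (T ∪ (f ∩ C)) g).card ≤ 1 := by
      refine meet_le_of_reachable ?_
      intro p hp q hq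
      rw [← mem_comp, comp_eq_of_mem_comps hD' (hgD hp)]
      exact hgD hq
    omega
  have hfg : Disjoint f g := by
    rw [Finset.disjoint_left]
    intro z hz hz'
    exact Finset.disjoint_left.1 hgfC (mem_inter.2 ⟨hz, hgC hz'⟩) hz'
  -- `T` lies in one component of `G - g`
  have hTg : (meetComps (gr A) g T).card ≤ 1 :=
    meet_le_of_meet_le h hT.zero.ge (h.cc_subset hT.face) hgne hgT.symm hT1
  have hbig : 2 ≤ (meetComps (gr A) g (T ∪ (f ∩ C))).card := by
    refine cross_mutual h.conn hgd (hTne.mono subset_union_left) (h.nonface g hg hg3)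
      (h.cc_ssubset hg) hgm
  -- so `f` meets two components of `G - g`
  have hfle := h.nocross g f hg hf hg3 h3 hfg.symm
  obtain ⟨t, ht⟩ := hint
  rw [mem_inter] at ht
  have hall : (meetComps (gr A) g (T ∪ (f ∩ C))).card ≤ 1 := by
    refine meet_le_of_reachable ?_
    have hone : ∀ p ∈ T ∪ (f ∩ C), (del (gr A) g).Reachable t p := by
      intro p hp
      rcases mem_union.1 hp with hp | hp
      · exact reachable_of_meet_le hgT.symm hTg ht.1 hp
      · exact reachable_of_meet_le hfg.symm hfle ht.2 (mem_inter.1 hp).1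
    intro p hp q hq
    exact (hone p hp).symm.trans (hone q hq)
  omega

/-- **the product structure** at a maximal uncrossed tight face -/
theorem splits_of_maximal (h : NC A) (hT : Tight A T) (hun : ¬ Crossed A T)
    (hmax : ∀ T', Tight A T' → T ⊂ T' → Crossed A T') : Splits A T (comps (gr A) T) where
  disj := fun C hC C' hC' hne => comps_disjoint hC hC' hne
  disjD := fun C hC => comps_disjoint_S hC
  cover := fun v hv => exists_comps hv
  out := by
    intro S hS hd
    constructor
    · intro hA C _ _
      exact h.down _ _ inter_subset_left hA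
    · intro hall
      by_contra hA
      obtain ⟨f, hfS, hf⟩ := exists_minNF hA
      have hfd : Disjoint T f := (hd.mono_left hfS).symm
      have hle : (meetComps (gr A) T f).card ≤ 1 := by
        by_contra hlt
        have h2 := h.two_le_card hf
        by_cases h3 : 3 ≤ f.card
        · exact hun ⟨f, hf, h3, hfd, by omega⟩
        · obtain ⟨u, v, rfl, huv⟩ := NC.pair_of_card_two hf (by omega)
          refine hlt (meet_le_of_reachable ?_)
          have hu : u ∉ T := Finset.disjoint_right.1 hfd (by simp)
          have hv : v ∉ T := Finset.disjoint_right.1 hfd (by simp)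
          have hr : (del (gr A) T).Reachable u v := SimpleGraph.Adj.reachable ⟨huv, hu, hv⟩
          intro p hp q hq
          rw [mem_insert, mem_singleton] at hp hq
          rcases hp with rfl | rfl <;> rcases hq with rfl | rfl
          · exact SimpleGraph.Reachable.refl _
          · exact hr
          · exact hr.symm
          · exact SimpleGraph.Reachable.refl _
      obtain ⟨x, hx⟩ := card_pos.1 (show 0 < f.card by have := h.two_le_card hf; omega)
      obtain ⟨C, hC, hxC⟩ := exists_comps (G := gr A) (Finset.disjoint_right.1 hfd hx)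
      have hfC : f ⊆ C := by
        intro z hz
        rw [← comp_eq_of_mem_comps hC hxC, mem_comp]
        exact reachable_of_meet_le hfd hle hx hz
      have hsub : f ⊆ S ∩ C := subset_inter hfS hfC
      exact hf.1 (h.down _ _ hsub (hall C hC (⟨x, hsub hx⟩)))
  inn := by
    intro S hTS
    constructor
    · intro hA C _
      exact h.down _ _ (union_subset hTS inter_subset_left) hA
    · intro hall
      by_contra hA
      obtain ⟨f, hfS, hf⟩ := exists_minNF hA
      by_cases hsp : 2 ≤ (meetComps (gr A) T f).card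
      · obtain ⟨C, hC, hno⟩ := redundant_of_maximal h hT hun hmax hf hsp
        refine hno (h.down _ _ ?_ (hall C hC))
        exact union_subset_union (Subset.refl T) (inter_subset_inter hfS (Subset.refl C))
      · by_cases hfT : f ⊆ T
        · exact hf.1 (h.down _ _ hfT hT.face)
        · obtain ⟨x, hx, hxT⟩ := Finset.not_subset.1 hfT
          obtain ⟨C, hC, hxC⟩ := exists_comps (G := gr A) hxT
          have hsub : f ⊆ T ∪ (S ∩ C) := by
            intro z hz
            by_cases hzT : z ∈ T
            · exact mem_union_left _ hzT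
            · refine mem_union_right _ (mem_inter.2 ⟨hfS hz, ?_⟩)
              obtain ⟨D, hD, hzD⟩ := exists_comps (G := gr A) hzT
              have h1 : C ∈ meetComps (gr A) T f := mem_meetComps.2 ⟨hC, by
                rw [Finset.not_disjoint_iff]; exact ⟨x, hxC, hx⟩⟩
              have h2 : D ∈ meetComps (gr A) T f := mem_meetComps.2 ⟨hD, by
                rw [Finset.not_disjoint_iff]; exact ⟨z, hzD, hz⟩⟩
              have h4 := card_le_one.1 (show (meetComps (gr A) T f).card ≤ 1 by omega) C h1 D h2
              rw [h4]; exact hzD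
          exact hf.1 (h.down _ _ hsub (hall C hC))

end Pool.Agent.Chrom
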