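import Pool.Agent.Lib_helper90.Chrom.Super

/-!
# Crossing sets

`S`, `T` disjoint.  `meetComps G S T` = components of `G - S` that meet `T`.
-/

open Finset

namespace Pool.Agent.Chrom

variable {V : Type*} [Fintype V] [DecidableEq V]

set_option linter.unusedSectionVars false

variable {G : SimpleGraph V} {S T C D E X : Finset V} {u v w : V}

/-- in a connected graph a component of `G - T` has a neighbour in `T` (if `T` is nonempty) -/
lemma exists_adj_of_comps (hG : G.Preconnected) (hT : T.Nonempty) (hE : E ∈ comps G T) :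
    ∃ u ∈ E, ∃ v ∈ T, G.Adj u v := by
  obtain ⟨a, ha⟩ := comps_nonempty hE
  obtain ⟨t, ht⟩ := hT
  by_contra hno
  push Not at hno
  have key : ∀ x, G.Reachable a x → x ∈ E := by
    rintro x ⟨p⟩
    have aux : ∀ (y z : V), G.Walk y z → y ∈ E → z ∈ E := by
      intro y z q
      induction q with
      | nil => exact id
      | @cons b c d hbc q ih =>
        intro hb
        refine ih ?_
        by_cases hc : c ∈ T
        · exact absurd hbc (hno b hb c hc)
        · exact comps_closed hE hb hbc hc
    exact aux a x p ha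
  have : t ∈ E := key t (hG a t)
  exact Finset.disjoint_left.1 (comps_disjoint_S hE) this ht

/-- components of `G - T` inside `C` which avoid `S` -/
noncomputable def avComps (G : SimpleGraph V) (T S C : Finset V) : Finset (Finset V) := by
  classical exact (comps G T).filter fun E => E ⊆ C ∧ Disjoint E S

lemma mem_avComps : E ∈ avComps G T S C ↔ E ∈ comps G T ∧ E ⊆ C ∧ Disjoint E S := by
  unfold avComps
  simp

/-- a component of `G - T` avoiding `S` lies, with its neighbours, in one component of `G - S` -/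
lemma exists_comps_of_avoid (hd : Disjoint S T) (hE : E ∈ comps G T) (hES : Disjoint E S) :
    ∃ C ∈ comps G S, E ⊆ C ∧ ∀ u ∈ E, ∀ v ∈ T, G.Adj u v → v ∈ C := by
  obtain ⟨C, hC, hEC⟩ := exists_comps_of_conn (S := S) (comps_conn hE) hES
  refine ⟨C, hC, hEC, fun u hu v hv huv => ?_⟩
  exact comps_closed hC (hEC hu) huv (Finset.disjoint_right.1 hd hv)

/-- such a component is a component of `G - (T ∩ C)` -/
lemma avComps_subset (hd : Disjoint S T) (hC : C ∈ comps G S) :
    avComps G T S C ⊆ (comps G (T ∩ C)).filter fun E => Disjoint E S := by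
  intro E hE
  obtain ⟨hE1, hE2, hE3⟩ := mem_avComps.1 hE
  rw [mem_filter]
  refine ⟨comps_of_comps hE1 ?_ ?_, hE3⟩
  · exact Finset.disjoint_of_subset_right inter_subset_left (comps_disjoint_S hE1)
  · intro u hu v huv hvE
    have hvT : v ∈ T := by
      by_contra hv
      exact hvE (comps_closed hE1 hu huv hv)
    exact mem_inter.2 ⟨hvT, comps_closed hC (hE2 hu) huv (Finset.disjoint_right.1 hd hvT)⟩

/-- a set nonempty and disjoint from `T` meets a component of `G - T'`, `T' ⊆ T` -/
lemma card_av_lt (hd : Disjoint S T) (hS : S.Nonempty) (hC : C ∈ comps G S) :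
    (avComps G T S C).card + 1 ≤ kk G (T ∩ C) := by
  classical
  obtain ⟨s, hs⟩ := hS
  have hsT : s ∉ T ∩ C := fun h => Finset.disjoint_left.1 hd hs (mem_inter.1 h).1
  have h1 : comp G (T ∩ C) s ∉ avComps G T S C := by
    intro h
    exact Finset.disjoint_left.1 (mem_avComps.1 h).2.2 (self_mem_comp s) hs
  rw [← card_insert_of_notMem h1]
  refine card_le_card ?_
  intro E hE
  rcases mem_insert.1 hE with rfl | hE
  · exact comp_mem_comps hsT
  · exact (mem_filter.1 (avComps_subset hd hC hE)).1

lemma card_filter_disjoint_add_meet :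
    ((comps G T).filter fun E => Disjoint E S).card + (meetComps G T S).card = kk G T := by
  classical
  unfold meetComps kk
  exact Finset.card_filter_add_card_filter_not (s := comps G T) (fun E => Disjoint E S)

/-- the components of `G - T` avoiding `S` are distributed over the components of `G - S`
meeting `T` -/
lemma filter_disjoint_eq_biUnion (hG : G.Preconnected) (hd : Disjoint S T) (hT : T.Nonempty) :
    ((comps G T).filter fun E => Disjoint E S) =
      (meetComps G S T).biUnion fun C => avComps G T S C := by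
  classical
  ext E
  rw [mem_filter, mem_biUnion]
  constructor
  · rintro ⟨hE, hES⟩
    obtain ⟨C, hC, hEC, hN⟩ := exists_comps_of_avoid hd hE hES
    obtain ⟨u, hu, v, hv, huv⟩ := exists_adj_of_comps hG hT hE
    refine ⟨C, mem_meetComps.2 ⟨hC, ?_⟩, mem_avComps.2 ⟨hE, hEC, hES⟩⟩
    rw [Finset.not_disjoint_iff]
    exact ⟨v, hN u hu v hv huv, hv⟩
  · rintro ⟨C, _, hE⟩
    exact ⟨(mem_avComps.1 hE).1, (mem_avComps.1 hE).2.2⟩

lemma card_filter_disjoint_eq_sum (hG : G.Preconnected) (hd : Disjoint S T) (hT : T.Nonempty) :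
    ((comps G T).filter fun E => Disjoint E S).card =
      ∑ C ∈ meetComps G S T, (avComps G T S C).card := by
  classical
  rw [filter_disjoint_eq_biUnion hG hd hT, card_biUnion]
  intro C hC C' hC' hne
  rw [Function.onFun, Finset.disjoint_left]
  intro E hE hE'
  obtain ⟨hE1, hE2, _⟩ := mem_avComps.1 hE
  obtain ⟨_, hE3, _⟩ := mem_avComps.1 hE'
  obtain ⟨x, hx⟩ := comps_nonempty hE1
  exact hne (comps_eq_of_mem (mem_meetComps.1 hC).1 (mem_meetComps.1 hC').1 (hE2 hx) (hE3 hx))

/-- exact count of the components of `G - T` -/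
lemma kk_eq_cross (hG : G.Preconnected) (hd : Disjoint S T) (hT : T.Nonempty) :
    kk G T = (meetComps G T S).card + ∑ C ∈ meetComps G S T, (avComps G T S C).card := by
  rw [← card_filter_disjoint_add_meet (S := S), card_filter_disjoint_eq_sum hG hd hT, add_comm]

/-- `T` is the union of its parts in the components of `G - S` which it meets -/
lemma card_eq_sum_meet (hd : Disjoint S T) : T.card = ∑ C ∈ meetComps G S T, (T ∩ C).card := by
  classical
  rw [card_eq_sum_inter (G := G) hd]
  symm
  refine sum_subset (fun C hC => (mem_meetComps.1 hC).1) ?_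
  intro C hC hC'
  have : Disjoint C T := by
    by_contra h
    exact hC' (mem_meetComps.2 ⟨hC, h⟩)
  rw [card_eq_zero, inter_comm]
  exact disjoint_iff_inter_eq_empty.1 this

/-- **crossing identity**: the defect of `T` in terms of its parts -/
lemma cc_eq_cross (hG : G.Preconnected) (hd : Disjoint S T) (hT : T.Nonempty) :
    cc G T = (meetComps G T S).card - (meetComps G S T).card +
      ∑ C ∈ meetComps G S T, (cc G (T ∩ C) -
        ((kk G (T ∩ C) : ℤ) - 1 - (avComps G T S C).card)) := by
  have h1 := kk_eq_cross hG hd hT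
  have h2 := card_eq_sum_meet (G := G) hd
  have h3 : (kk G T : ℤ) = (meetComps G T S).card +
      ∑ C ∈ meetComps G S T, ((avComps G T S C).card : ℤ) := by
    rw [h1]; push_cast; ring
  have h4 : (T.card : ℤ) = ∑ C ∈ meetComps G S T, ((T ∩ C).card : ℤ) := by
    exact_mod_cast h2
  have h5 : ∑ C ∈ meetComps G S T, (cc G (T ∩ C) -
      ((kk G (T ∩ C) : ℤ) - 1 - (avComps G T S C).card)) =
      ∑ C ∈ meetComps G S T, (((avComps G T S C).card : ℤ) - (T ∩ C).card + 1) := by
    refine sum_congr rfl fun C _ => ?_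
    unfold cc
    ring
  rw [h5, sum_add_distrib, sum_sub_distrib, ← h4]
  unfold cc
  rw [h3]
  simp
  ring

/-- **crossing inequality** -/
lemma cc_le_cross (hG : G.Preconnected) (hd : Disjoint S T) (hS : S.Nonempty) (hT : T.Nonempty) :
    cc G T ≤ (meetComps G T S).card - (meetComps G S T).card +
      ∑ C ∈ meetComps G S T, cc G (T ∩ C) := by
  rw [cc_eq_cross hG hd hT]
  gcongr with C hC
  have h := card_av_lt (T := T) hd hS (mem_meetComps.1 hC).1
  have h' : ((avComps G T S C).card : ℤ) + 1 ≤ kk G (T ∩ C) := by exact_mod_cast h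
  linarith

/-- the part of `T` in one of at least two components is a proper nonempty subset -/
lemma part_ssubset (h2 : 2 ≤ (meetComps G S T).card) (hC : C ∈ meetComps G S T) :
    T ∩ C ⊂ T ∧ (T ∩ C).Nonempty := by
  obtain ⟨hC1, hC2⟩ := mem_meetComps.1 hC
  refine ⟨?_, ?_⟩
  · rw [Finset.ssubset_iff_subset_ne]
    refine ⟨inter_subset_left, fun h => ?_⟩
    obtain ⟨C', hC', hne⟩ := Finset.exists_mem_ne (s := meetComps G S T) (by omega) C
    obtain ⟨hC1', hC2'⟩ := mem_meetComps.1 hC'
    rw [Finset.not_disjoint_iff] at hC2'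
    obtain ⟨v, hv, hvT⟩ := hC2'
    rw [← h] at hvT
    exact hne (comps_eq_of_mem hC1' hC1 hv (mem_inter.1 hvT).2)
  · rw [Finset.not_disjoint_iff] at hC2
    obtain ⟨v, hv, hvT⟩ := hC2
    exact ⟨v, mem_inter.2 ⟨hvT, hv⟩⟩

/-- **half of the crossing lemma** -/
lemma cross_card_le (hG : G.Preconnected) (hd : Disjoint S T) (hS : S.Nonempty)
    (hT0 : 0 ≤ cc G T) (hparts : ∀ X, X ⊂ T → X.Nonempty → cc G X ≤ 0)
    (h2 : 2 ≤ (meetComps G S T).card) :
    (meetComps G S T).card ≤ (meetComps G T S).card := by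
  have hT : T.Nonempty := by
    obtain ⟨C, hC⟩ := card_pos.1 (show 0 < (meetComps G S T).card by omega)
    exact ((part_ssubset h2 hC).2).mono inter_subset_left
  have h := cc_le_cross hG hd hS hT
  have h3 : ∑ C ∈ meetComps G S T, cc G (T ∩ C) ≤ 0 :=
    sum_nonpos fun C hC => hparts _ (part_ssubset h2 hC).1 (part_ssubset h2 hC).2
  have h4 : ((meetComps G S T).card : ℤ) ≤ (meetComps G T S).card := by linarith
  exact_mod_cast h4

/-- **crossing lemma**: two disjoint sets with `c ≥ 0` whose proper subsets have `c ≤ 0` are split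
into the same number of parts; if this number is at least two, everything is tight. -/
lemma cross_lemma (hG : G.Preconnected) (hd : Disjoint S T)
    (hS0 : 0 ≤ cc G S) (hT0 : 0 ≤ cc G T)
    (hpS : ∀ X, X ⊂ S → X.Nonempty → cc G X ≤ 0) (hpT : ∀ X, X ⊂ T → X.Nonempty → cc G X ≤ 0)
    (h2 : 2 ≤ (meetComps G S T).card) (hS : S.Nonempty) :
    (meetComps G S T).card = (meetComps G T S).card ∧ cc G S = 0 ∧ cc G T = 0 ∧
      (∀ C ∈ meetComps G S T, cc G (T ∩ C) = 0 ∧ kk G (T ∩ C) = (avComps G T S C).card + 1) ∧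
      (∀ C ∈ meetComps G T S, cc G (S ∩ C) = 0 ∧ kk G (S ∩ C) = (avComps G S T C).card + 1) := by
  have hT : T.Nonempty := by
    obtain ⟨C, hC⟩ := card_pos.1 (show 0 < (meetComps G S T).card by omega)
    exact ((part_ssubset h2 hC).2).mono inter_subset_left
  have hle := cross_card_le hG hd hS hT0 hpT h2
  have h2' : 2 ≤ (meetComps G T S).card := h2.trans hle
  have hle' := cross_card_le hG hd.symm hT hS0 hpS h2'
  have hcard : (meetComps G S T).card = (meetComps G T S).card := le_antisymm hle hle'
  have main : ∀ (S T : Finset V), Disjoint S T → S.Nonempty → T.Nonempty → 0 ≤ cc G T →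
      (∀ X, X ⊂ T → X.Nonempty → cc G X ≤ 0) → 2 ≤ (meetComps G S T).card →
      (meetComps G S T).card = (meetComps G T S).card →
      cc G T = 0 ∧ (∀ C ∈ meetComps G S T, cc G (T ∩ C) = 0 ∧
        kk G (T ∩ C) = (avComps G T S C).card + 1) := by
    intro S T hd hS hT hT0 hpT h2 hcard
    have h := cc_eq_cross hG hd hT
    rw [hcard, sub_self, zero_add] at h
    have hterm : ∀ C ∈ meetComps G S T, cc G (T ∩ C) -
        ((kk G (T ∩ C) : ℤ) - 1 - (avComps G T S C).card) ≤ 0 := by
      intro C hC
      have h1 := hpT _ (part_ssubset h2 hC).1 (part_ssubset h2 hC).2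
      have h3 := card_av_lt (T := T) hd hS (mem_meetComps.1 hC).1
      have h3' : ((avComps G T S C).card : ℤ) + 1 ≤ kk G (T ∩ C) := by exact_mod_cast h3
      linarith
    have hsum : ∑ C ∈ meetComps G S T, (cc G (T ∩ C) -
        ((kk G (T ∩ C) : ℤ) - 1 - (avComps G T S C).card)) = 0 :=
      le_antisymm (sum_nonpos hterm) (by rw [← h]; exact hT0)
    have hz := (sum_eq_zero_iff_of_nonpos hterm).1 hsum
    refine ⟨by rw [h, hsum], fun C hC => ?_⟩
    have h0 := hz C hC
    have h1 := hpT _ (part_ssubset h2 hC).1 (part_ssubset h2 hC).2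
    have h3 := card_av_lt (T := T) hd hS (mem_meetComps.1 hC).1
    have h3' : ((avComps G T S C).card : ℤ) + 1 ≤ kk G (T ∩ C) := by exact_mod_cast h3
    refine ⟨by linarith, ?_⟩
    have : (kk G (T ∩ C) : ℤ) = (avComps G T S C).card + 1 := by linarith
    exact_mod_cast this
  obtain ⟨a1, a2⟩ := main S T hd hS hT hT0 hpT h2 hcard
  obtain ⟨b1, b2⟩ := main T S hd.symm hT hS hS0 hpS h2' hcard.symm
  exact ⟨hcard, b1, a1, a2, b2⟩

/-- mutuality: if `T` meets at least two components of `G - S` then `S` meets at least two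
components of `G - T` -/
lemma cross_mutual (hG : G.Preconnected) (hd : Disjoint S T) (hS : S.Nonempty)
    (hT0 : 0 ≤ cc G T) (hparts : ∀ X, X ⊂ T → X.Nonempty → cc G X ≤ 0)
    (h2 : 2 ≤ (meetComps G S T).card) : 2 ≤ (meetComps G T S).card :=
  h2.trans (cross_card_le hG hd hS hT0 hparts h2)

end Pool.Agent.Chrom
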