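import Pool.Agent.Lib_helper90.Chrom.NC
import Pool.Agent.Lib_helper88.Chrom.PieceG

/-!
# The pieces at a tight face belong to the class NC
-/

open Finset

namespace Pool.Agent.Chrom

set_option linter.unusedSectionVars false

section maps

variable {V V' : Type*} [Fintype V] [DecidableEq V] [Fintype V'] [DecidableEq V']
variable {G : SimpleGraph V} {G' : SimpleGraph V'} {S : Finset V} {S' : Finset V'} {φ : V → V'}

/-- a quotient map does not increase the number of components -/
lemma kk_le_of_map (hφ : Function.Surjective φ) (hS : ∀ v, v ∈ S ↔ φ v ∈ S')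
    (h1 : ∀ u v, (del G S).Adj u v → (del G' S').Reachable (φ u) (φ v)) :
    kk G' S' ≤ kk G S := by
  classical
  have hsub : comps G' S' ⊆ (comps G S).image fun C => if hC : C.Nonempty
      then comp G' S' (φ hC.choose) else ∅ := by
    intro D hD
    obtain ⟨y, hy, rfl⟩ := mem_comps.1 hD
    obtain ⟨v, rfl⟩ := hφ y
    rw [mem_image]
    refine ⟨comp G S v, comp_mem_comps fun h => hy ((hS v).1 h), ?_⟩
    have hne : (comp G S v).Nonempty := ⟨v, self_mem_comp v⟩
    rw [dif_pos hne]
    exact comp_eq_of_mem (mem_comp.2 (reachable_map h1 (mem_comp.1 hne.choose_spec)))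
  exact (card_le_card hsub).trans card_image_le

end maps

variable {V : Type*} [Fintype V] [DecidableEq V]
variable {A : Finset V → Prop} {S T f g X C : Finset V} {a b u v w : V}

/-- the copy in the piece of a set of vertices of `C` -/
def up (C X : Finset V) : Finset (Option {v // v ∈ C}) :=
  (univ.filter fun v : {v // v ∈ C} => v.1 ∈ X).map Function.Embedding.some

lemma none_not_mem_up : none ∉ up C X := by
  unfold up
  rw [mem_map]
  rintro ⟨v, _, hv⟩
  exact absurd hv (by simp)

lemma some_mem_up {v : {v // v ∈ C}} : some v ∈ up C X ↔ v.1 ∈ X := by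
  unfold up
  rw [mem_map]
  constructor
  · rintro ⟨w, hw, h⟩
    have : w = v := Option.some_injective _ h
    subst this
    exact (mem_filter.1 hw).2
  · intro hv
    exact ⟨v, mem_filter.2 ⟨mem_univ _, hv⟩, rfl⟩

lemma some'_up (hX : X ⊆ C) : some' (up C X) = X := by
  ext v
  rw [mem_some']
  constructor
  · rintro ⟨h, hv⟩
    exact some_mem_up.1 hv
  · intro hv
    exact ⟨hX hv, some_mem_up.2 hv⟩

lemma some'_insert_up (hX : X ⊆ C) : some' (insert none (up C X)) = X := by
  ext v
  rw [mem_some']
  constructor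
  · rintro ⟨h, hv⟩
    rcases mem_insert.1 hv with hv | hv
    · exact absurd hv (by simp)
    · exact some_mem_up.1 hv
  · intro hv
    exact ⟨hX hv, mem_insert_of_mem (some_mem_up.2 hv)⟩

lemma some'_mono {P Q : Finset (Option {v // v ∈ C})} (h : P ⊆ Q) : some' P ⊆ some' Q := by
  intro v hv
  rw [mem_some'] at hv ⊢
  obtain ⟨h1, h2⟩ := hv
  exact ⟨h1, h h2⟩

lemma unpiece_mono {D : Finset V} {P Q : Finset (Option {v // v ∈ C})} (h : P ⊆ Q) :
    unpiece D C P ⊆ unpiece D C Q := by
  unfold unpiece
  split_ifs with h1 h2 h2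
  · exact union_subset_union (Subset.refl _) (some'_mono h)
  · exact absurd (h h1) h2
  · exact (some'_mono h).trans subset_union_right
  · exact some'_mono h

section

variable {T C : Finset V}

lemma piece_out {P : Finset (Option {v // v ∈ C})} (hn : none ∉ P) :
    piece A T C P ↔ A (some' P) := by
  unfold piece
  rw [unpiece_out hn]

lemma piece_in {P : Finset (Option {v // v ∈ C})} (hn : none ∈ P) :
    piece A T C P ↔ A (T ∪ some' P) := by
  unfold piece
  rw [unpiece_in hn]

lemma some'_pair (u v : {v // v ∈ C}) :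
    some' ({some u, some v} : Finset (Option {v // v ∈ C})) = {u.1, v.1} := by
  ext w
  rw [mem_some']
  simp only [mem_insert, mem_singleton, Option.some.injEq]
  constructor
  · rintro ⟨h, rfl | rfl⟩ <;> simp
  · rintro (rfl | rfl)
    · exact ⟨u.2, Or.inl rfl⟩
    · exact ⟨v.2, Or.inr rfl⟩

lemma some'_none_some (v : {v // v ∈ C}) :
    some' ({none, some v} : Finset (Option {v // v ∈ C})) = {v.1} := by
  ext w
  rw [mem_some']
  simp only [mem_insert, mem_singleton, Option.some.injEq]
  constructor
  · rintro ⟨h, h' | rfl⟩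
    · exact absurd h' (by simp)
    · rfl
  · rintro rfl
    exact ⟨v.2, Or.inr rfl⟩

lemma gr_piece_some_some {u v : {v // v ∈ C}} :
    (gr (piece A T C)).Adj (some u) (some v) ↔ (gr A).Adj u v := by
  rw [gr_adj, gr_adj, piece_out (by simp), some'_pair]
  simp only [ne_eq, Option.some.injEq]
  constructor
  · rintro ⟨h1, h2⟩
    exact ⟨fun h => h1 (Subtype.ext h), h2⟩
  · rintro ⟨h1, h2⟩
    exact ⟨fun h => h1 (congrArg Subtype.val h), h2⟩

lemma gr_piece_none_some {v : {v // v ∈ C}} :
    (gr (piece A T C)).Adj none (some v) ↔ ¬ A (insert v.1 T) := by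
  rw [gr_adj, piece_in (by simp), some'_none_some, union_comm, ← insert_eq]
  simp

lemma pieceG_le (h : NC A) : pieceG (gr A) T C ≤ gr (piece A T C) := by
  have key : ∀ v : {v // v ∈ C}, (∃ d ∈ T, (gr A).Adj d v) → ¬ A (insert v.1 T) := by
    rintro v ⟨d, hd, hadj⟩ hA
    exact h.not_adj hA (mem_insert_of_mem hd) (mem_insert_self _ _) hadj
  rintro (_ | u) (_ | v) huv
  · exact absurd huv id
  · rw [gr_piece_none_some]
    exact key v huv
  · refine SimpleGraph.Adj.symm ?_
    rw [gr_piece_none_some]
    exact key u huv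
  · rw [gr_piece_some_some]
    exact huv

end

/-- adjacency is mapped to reachability in the piece -/
lemma reach_pproj (h : NC A) (hC : C ∈ comps (gr A) T) {P : Finset (Option {v // v ∈ C})}
    (hn : none ∉ P) {u v : V} (huv : (del (gr A) (some' P)).Adj u v) :
    (del (gr (piece A T C)) P).Reachable (pproj C u) (pproj C v) := by
  obtain ⟨hadj, hu, hv⟩ := huv
  rw [mem_some'_iff_pproj hn] at hu hv
  have hout : ∀ x y, x ∈ C → y ∉ C → (gr A).Adj x y → y ∈ T := by
    intro x y hx hy hxy
    by_contra hyT
    exact hy (comps_closed hC hx hxy hyT)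
  by_cases hu' : u ∈ C <;> by_cases hv' : v ∈ C
  · rw [pproj_mem hu'] at hu ⊢
    rw [pproj_mem hv'] at hv ⊢
    exact SimpleGraph.Adj.reachable ⟨gr_piece_some_some.2 hadj, hu, hv⟩
  · rw [pproj_mem hu'] at hu ⊢
    rw [pproj_not_mem hv'] at hv ⊢
    refine SimpleGraph.Adj.reachable ⟨?_, hu, hv⟩
    exact pieceG_le h (show (pieceG (gr A) T C).Adj (some ⟨u, hu'⟩) none from
      ⟨v, hout u v hu' hv' hadj, hadj.symm⟩)
  · rw [pproj_not_mem hu'] at hu ⊢
    rw [pproj_mem hv'] at hv ⊢
    refine SimpleGraph.Adj.reachable ⟨?_, hu, hv⟩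
    exact pieceG_le h (show (pieceG (gr A) T C).Adj none (some ⟨v, hv'⟩) from
      ⟨u, hout v u hv' hu' hadj.symm, hadj⟩)
  · rw [pproj_not_mem hu', pproj_not_mem hv']

/-- the minimal nonfaces of a piece which do not contain the contracted vertex -/
lemma minNF_piece_out {P : Finset (Option {v // v ∈ C})} (hP : MinNF (piece A T C) P)
    (hn : none ∉ P) : MinNF A (some' P) := by
  refine ⟨fun hA => hP.1 ((piece_out hn).2 hA), fun X hX => ?_⟩
  have hXC : X ⊆ C := hX.subset.trans some'_subset
  have h1 : up C X ⊂ P := by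
    rw [Finset.ssubset_iff_subset_ne]
    constructor
    · rintro (_ | v) hv
      · exact absurd hv none_not_mem_up
      · have h2 := hX.subset (some_mem_up.1 hv)
        rw [mem_some'] at h2
        exact h2.2
    · intro he
      apply hX.ne
      rw [← some'_up hXC, he]
  have h2 := hP.2 _ h1
  rwa [piece_out none_not_mem_up, some'_up hXC] at h2

/-- the minimal nonfaces of a piece which contain the contracted vertex -/
lemma minNF_piece_in {P : Finset (Option {v // v ∈ C})} (hP : MinNF (piece A T C) P)
    (hn : none ∈ P) : ¬ A (T ∪ some' P) ∧ A (some' P) ∧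
      ∀ X, X ⊂ some' P → A (T ∪ X) := by
  refine ⟨fun hA => hP.1 ((piece_in hn).2 hA), ?_, fun X hX => ?_⟩
  · have h1 := hP.2 _ (erase_ssubset hn)
    rw [piece_out (by simp)] at h1
    have h2 : some' (P.erase none) = some' P := by
      ext v; simp [mem_some']
    rwa [h2] at h1
  · have hXC : X ⊆ C := hX.subset.trans some'_subset
    have h1 : insert none (up C X) ⊂ P := by
      rw [Finset.ssubset_iff_subset_ne]
      constructor
      · intro p hp
        rcases mem_insert.1 hp with rfl | hp
        · exact hn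
        · cases p with
          | none => exact absurd hp none_not_mem_up
          | some v =>
            have h2 := hX.subset (some_mem_up.1 hp)
            rw [mem_some'] at h2
            exact h2.2
      · intro he
        apply hX.ne
        rw [← some'_insert_up hXC, he]
    have h2 := hP.2 _ h1
    rwa [piece_in (mem_insert_self _ _), some'_insert_up hXC] at h2

/-- a minimal nonface of the piece through the contracted vertex comes from a minimal nonface -/
lemma exists_lift (hT : A T) (h : NC A) {P : Finset (Option {v // v ∈ C})}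
    (hP : MinNF (piece A T C) P) (hn : none ∈ P) (h3 : 3 ≤ P.card) :
    ∃ f, MinNF A f ∧ f ⊆ T ∪ some' P ∧ some' P ⊆ f ∧ (T ∩ f).Nonempty ∧ 3 ≤ f.card := by
  obtain ⟨h1, h2, h4⟩ := minNF_piece_in hP hn
  obtain ⟨f, hfs, hf⟩ := exists_minNF h1
  have hsub : some' P ⊆ f := by
    intro s hs
    by_contra hsf
    have h5 := h4 _ (erase_ssubset hs)
    refine hf.1 (h.down _ _ ?_ h5)
    intro x hx
    rcases mem_union.1 (hfs hx) with hx' | hx'
    · exact mem_union_left _ hx'
    · refine mem_union_right _ (mem_erase.2 ⟨?_, hx'⟩)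
      rintro rfl
      exact hsf hx
  have hint : (T ∩ f).Nonempty := by
    by_contra hemp
    rw [Finset.not_nonempty_iff_eq_empty, ← disjoint_iff_inter_eq_empty] at hemp
    refine hf.1 (h.down _ _ ?_ h2)
    intro x hx
    rcases mem_union.1 (hfs hx) with hx' | hx'
    · exact absurd hx (Finset.disjoint_left.1 hemp hx')
    · exact hx'
  refine ⟨f, hf, hfs, hsub, hint, ?_⟩
  obtain ⟨t, ht⟩ := hint
  rw [mem_inter] at ht
  by_cases hts : t ∈ some' P
  · -- then `T ∪ some' P` is covered by a smaller set
    exfalso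
    have h5 := h4 _ (erase_ssubset hts)
    refine h1 (h.down _ _ ?_ h5)
    intro x hx
    by_cases hxt : x = t
    · subst hxt; exact mem_union_left _ ht.1
    · rcases mem_union.1 hx with hx | hx
      · exact mem_union_left _ hx
      · exact mem_union_right _ (mem_erase.2 ⟨hxt, hx⟩)
  · have h6 := card_some'_none hn
    have h7 : (insert t (some' P)).card ≤ f.card :=
      card_le_card (insert_subset_iff.2 ⟨ht.2, hsub⟩)
    rw [card_insert_of_notMem hts] at h7
    omega

/-- all vertices outside `C` are connected in `G - S` if `S ⊆ C` and `T` is not split by `S` -/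
lemma reach_out (h : NC A) (hTne : T.Nonempty) (hC : C ∈ comps (gr A) T) (hSC : S ⊆ C)
    (hTS : (meetComps (gr A) S T).card ≤ 1) :
    ∀ u v, u ∉ C → v ∉ C → (del (gr A) S).Reachable u v := by
  have hdT : Disjoint S T := (comps_disjoint_S hC).mono_left hSC
  have key : ∀ w, w ∉ C → ∃ t ∈ T, (del (gr A) S).Reachable w t := by
    intro w hw
    by_cases hwT : w ∈ T
    · exact ⟨w, hwT, SimpleGraph.Reachable.refl _⟩
    · obtain ⟨D, hD, hwD⟩ := exists_comps (G := gr A) hwT
      have hDC : D ≠ C := fun he => hw (he ▸ hwD)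
      obtain ⟨x, hx, t, ht, hxt⟩ := exists_adj_of_comps h.conn hTne hD
      have hDS : Disjoint D S := (comps_disjoint hD hC hDC).mono_right hSC
      refine ⟨t, ht, SimpleGraph.Reachable.trans (v := x) ?_ (SimpleGraph.Adj.reachable ?_)⟩
      · rw [← mem_comp]
        exact conn_subset_comp (comps_conn hD) hDS hwD hx
      · exact ⟨hxt, Finset.disjoint_left.1 hDS hx, Finset.disjoint_right.1 hdT ht⟩
  intro u v hu hv
  obtain ⟨t, ht, hut⟩ := key u hu
  obtain ⟨t', ht', hvt⟩ := key v hv
  exact (hut.trans (reachable_of_meet_le hdT hTS ht ht')).trans hvt.symm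

/-- the extra edges at the contracted vertex join vertices which are already connected -/
lemma reach_extra (h : NC A) (hT : A T) (hC : C ∈ comps (gr A) T) (hSC : S ⊆ C)
    (hS : MinNF A S) (h3 : 3 ≤ S.card) {y : V} (hy : y ∉ S) (hno : ¬ A (insert y T)) :
    ∃ t ∈ T, (del (gr A) S).Reachable t y := by
  have hdT : Disjoint S T := (comps_disjoint_S hC).mono_left hSC
  obtain ⟨g, hgs, hg⟩ := exists_minNF hno
  have hyg : y ∈ g := by
    by_contra hyg
    refine hg.1 (h.down _ _ ?_ hT)
    intro x hx
    rcases mem_insert.1 (hgs hx) with rfl | hx'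
    · exact absurd hx hyg
    · exact hx'
  have h2 := h.two_le_card hg
  obtain ⟨t, ht, hty⟩ := Finset.exists_mem_ne (s := g) (by omega) y
  have htT : t ∈ T := by
    rcases mem_insert.1 (hgs ht) with h' | h'
    · exact absurd h' hty
    · exact h'
  have hdg : Disjoint S g := by
    rw [Finset.disjoint_right]
    intro x hx
    rcases mem_insert.1 (hgs hx) with rfl | hx'
    · exact hy
    · exact Finset.disjoint_right.1 hdT hx'
  refine ⟨t, htT, ?_⟩
  by_cases hg3 : 3 ≤ g.card
  · exact reachable_of_meet_le hdg (h.nocross S g hS hg h3 hg3 hdg) ht hyg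
  · have hgeq : g = {t, y} := by
      symm
      refine Finset.eq_of_subset_of_card_le (pair_subset_iff.2 ⟨ht, hyg⟩) ?_
      rw [card_pair hty]; omega
    refine SimpleGraph.Adj.reachable ⟨⟨hty, ?_⟩, Finset.disjoint_right.1 hdg ht, hy⟩
    rw [← hgeq]; exact hg.1

/-- a minimal nonface inside `C` does not split `T` -/
lemma meet_T_le (h : NC A) (hT : Tight A T) (hun : ¬ Crossed A T) (hd : Disjoint S T)
    (hS : MinNF A S) (h3 : 3 ≤ S.card) : (meetComps (gr A) S T).card ≤ 1 := by
  refine meet_le_of_meet_le h hT.zero.ge (h.cc_subset hT.face) (card_pos.1 (by omega)) hd ?_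
  by_contra hlt
  exact hun ⟨S, hS, h3, hd.symm, by omega⟩

/-- components of the piece after the removal of a minimal nonface not containing `none` -/
lemma kk_piece_minNF (h : NC A) (hT : Tight A T) (hun : ¬ Crossed A T)
    (hC : C ∈ comps (gr A) T) {P : Finset (Option {v // v ∈ C})}
    (hP : MinNF (piece A T C) P) (hn : none ∉ P) (h3 : 3 ≤ P.card) :
    kk (gr (piece A T C)) P = kk (gr A) (some' P) := by
  have hS := minNF_piece_out hP hn
  have hS3 : 3 ≤ (some' P).card := by rw [card_some' hn]; exact h3
  have hSC : some' P ⊆ C := some'_subset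
  have hdT : Disjoint (some' P) T := (comps_disjoint_S hC).mono_left hSC
  have hTne : T.Nonempty := card_pos.1 (by have := hT.two; omega)
  obtain ⟨d, hd⟩ := hTne
  have hdC : d ∉ C := fun hh => Finset.disjoint_left.1 (comps_disjoint_S hC) hh hd
  have hro := reach_out h ⟨d, hd⟩ hC hSC (meet_T_le h hT hun hdT hS hS3)
  refine (kk_map (pproj_surjective hdC) (fun v => mem_some'_iff_pproj hn) ?_ ?_ ?_).symm
  · intro u v huv
    exact reach_pproj h hC hn huv
  · intro u v hv huv
    by_cases hu' : u ∈ C <;> by_cases hv' : v ∈ C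
    · rw [pproj_mem hu', pproj_mem hv'] at huv
      have h2 : u = v := congrArg Subtype.val (Option.some_injective _ huv)
      rw [h2]
    · rw [pproj_mem hu', pproj_not_mem hv'] at huv; exact absurd huv (by simp)
    · rw [pproj_not_mem hu', pproj_mem hv'] at huv; exact absurd huv (by simp)
    · exact hro u v hu' hv'
  · have key : ∀ y : {v // v ∈ C}, some y ∉ P → ¬ A (insert y.1 T) →
        ∃ t, pproj C t = none ∧ (del (gr A) (some' P)).Reachable t y := by
      intro y hy hno
      have hyS : y.1 ∉ some' P := by rw [mem_some'_iff_pproj hn, pproj_coe]; exact hy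
      obtain ⟨t, ht, hr⟩ := reach_extra h hT.face hC hSC hS hS3 hyS hno
      exact ⟨t, pproj_not_mem fun hh =>
        Finset.disjoint_left.1 (comps_disjoint_S hC) hh ht, hr⟩
    rintro (_ | x) (_ | y) ⟨hxy, hx, hy⟩
    · exact absurd hxy ((gr (piece A T C)).loopless.irrefl _)
    · obtain ⟨t, ht, hr⟩ := key y hy (gr_piece_none_some.1 hxy)
      exact ⟨t, y, ht, pproj_coe y, hr⟩
    · obtain ⟨t, ht, hr⟩ := key x hx (gr_piece_none_some.1 hxy.symm)
      exact ⟨x, t, pproj_coe x, ht, hr.symm⟩
    · refine ⟨x, y, pproj_coe x, pproj_coe y,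
        SimpleGraph.Adj.reachable ⟨gr_piece_some_some.1 hxy, ?_, ?_⟩⟩
      · rw [mem_some'_iff_pproj hn, pproj_coe]; exact hx
      · rw [mem_some'_iff_pproj hn, pproj_coe]; exact hy

/-- removing a set with the contracted vertex: only the edges of `pieceG` matter -/
lemma kk_piece_none (h : NC A) (hC : C ∈ comps (gr A) T) {P : Finset (Option {v // v ∈ C})}
    (hn : none ∈ P) : kk (gr (piece A T C)) P = kk (pieceG (gr A) T C) P := by
  unfold kk
  rw [comps_eq_of_reachable (pieceG_le h) P]
  rintro (_ | x) (_ | y) ⟨hxy, hx, hy⟩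
  · exact absurd hn hx
  · exact absurd hn hx
  · exact absurd hn hy
  · exact SimpleGraph.Adj.reachable ⟨gr_piece_some_some.1 hxy, hx, hy⟩

lemma cc_piece_none (h : NC A) (hT : Tight A T) (hC : C ∈ comps (gr A) T)
    {P : Finset (Option {v // v ∈ C})} (hn : none ∈ P) :
    cc (gr (piece A T C)) P = cc (gr A) (T ∪ some' P) := by
  have h1 := cc_piece_in (G := gr A) hC hn
  rw [hT.zero, sub_zero, unpiece_in hn] at h1
  rw [← h1]
  unfold cc
  rw [kk_piece_none h hC hn]

lemma cc_piece_le (h : NC A) (hTne : T.Nonempty) (hC : C ∈ comps (gr A) T)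
    {P : Finset (Option {v // v ∈ C})} (hn : none ∉ P) :
    cc (gr (piece A T C)) P ≤ cc (gr A) (some' P) := by
  obtain ⟨d, hd⟩ := hTne
  have hdC : d ∉ C := fun hh => Finset.disjoint_left.1 (comps_disjoint_S hC) hh hd
  have h1 : kk (gr (piece A T C)) P ≤ kk (gr A) (some' P) :=
    kk_le_of_map (pproj_surjective hdC) (fun v => mem_some'_iff_pproj hn)
      fun u v huv => reach_pproj h hC hn huv
  unfold cc
  rw [card_some' hn]
  have h2 : (kk (gr (piece A T C)) P : ℤ) ≤ kk (gr A) (some' P) := by exact_mod_cast h1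
  linarith

/-- `c ≥ 0` for the minimal nonfaces of a piece through the contracted vertex -/
lemma cc_piece_nonneg_in (h : NC A) (hT : Tight A T) (hC : C ∈ comps (gr A) T)
    {P : Finset (Option {v // v ∈ C})} (hP : MinNF (piece A T C) P) (hn : none ∈ P)
    (h3 : 3 ≤ P.card) : 0 ≤ cc (gr A) (T ∪ some' P) := by
  obtain ⟨f, hf, hfs, hsub, hint, hf3⟩ := exists_lift hT.face h hP hn h3
  obtain ⟨h1, h2, h4⟩ := minNF_piece_in hP hn
  have hTf : T ∪ some' P = T ∪ f := by
    refine Subset.antisymm (union_subset_union (Subset.refl _) hsub) ?_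
    exact union_subset subset_union_left hfs
  rw [hTf]
  refine cc_union_nonneg h hT hf hf3 hint ?_ ?_
  · intro hfT
    exact hf.1 (h.down _ _ hfT hT.face)
  · intro u hu v hv
    rw [mem_sdiff] at hu hv
    have hvP : v ∈ some' P := by
      rcases mem_union.1 (hfs hv.1) with h' | h'
      · exact absurd h' hv.2
      · exact h'
    have hcard := card_some'_none hn
    have hss : ({v} : Finset V) ⊂ some' P := by
      rw [Finset.ssubset_iff_subset_ne]
      refine ⟨singleton_subset_iff.2 hvP, fun he => ?_⟩
      rw [← he, card_singleton] at hcard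
      omega
    exact h.not_adj (h4 _ hss) (mem_union_left _ hu.1) (mem_union_right _ (mem_singleton_self v))

/-- **the pieces at an uncrossed tight face are in the class** -/
theorem NC.piece (h : NC A) (hT : Tight A T) (hun : ¬ Crossed A T)
    (hC : C ∈ comps (gr A) T) : NC (piece A T C) := by
  have hTne : T.Nonempty := card_pos.1 (by have := hT.two; omega)
  obtain ⟨c0, hc0⟩ := comps_nonempty hC
  obtain ⟨d, hd⟩ := id hTne
  have hdC : d ∉ C := fun hh => Finset.disjoint_left.1 (comps_disjoint_S hC) hh hd
  have hdown : ∀ S S' : Finset (Option {v // v ∈ C}), S ⊆ S' → Chrom.piece A T C S' →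
      Chrom.piece A T C S := fun S S' hSS hS' => h.down _ _ (unpiece_mono hSS) hS'
  have hconn : (gr (Chrom.piece A T C)).Preconnected := by
    have hmap : ∀ x y : V, (gr A).Reachable x y →
        (gr (Chrom.piece A T C)).Reachable (pproj C x) (pproj C y) := by
      rintro x y ⟨p⟩
      induction p with
      | nil => exact SimpleGraph.Reachable.refl _
      | @cons x z y hxz p ih =>
        refine SimpleGraph.Reachable.trans ?_ ih
        have h1 := reach_pproj (P := ∅) h hC (by simp)
          (u := x) (v := z) ⟨hxz, by simp [mem_some'], by simp [mem_some']⟩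
        refine h1.mono ?_
        intro p q hpq
        exact hpq.1
    intro p q
    obtain ⟨x, rfl⟩ := pproj_surjective hdC p
    obtain ⟨y, rfl⟩ := pproj_surjective hdC q
    exact hmap x y (h.conn x y)
  have hface : ∀ S : Finset (Option {v // v ∈ C}), Chrom.piece A T C S → S.Nonempty →
      cc (gr (Chrom.piece A T C)) S ≤ 0 := by
    intro S hS hne
    by_cases hn : none ∈ S
    · rw [cc_piece_none h hT hC hn]
      exact h.face _ ((piece_in hn).1 hS) (hTne.mono subset_union_left)
    · refine (cc_piece_le h hTne hC hn).trans (h.face _ ((piece_out hn).1 hS) ?_)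
      rw [← card_pos, card_some' hn, card_pos]
      exact hne
  have hnonface : ∀ f : Finset (Option {v // v ∈ C}), MinNF (Chrom.piece A T C) f →
      3 ≤ f.card → 0 ≤ cc (gr (Chrom.piece A T C)) f := by
    intro f hf h3
    by_cases hn : none ∈ f
    · rw [cc_piece_none h hT hC hn]
      exact cc_piece_nonneg_in h hT hC hf hn h3
    · have hS := minNF_piece_out hf hn
      have h1 := h.nonface _ hS (by rw [card_some' hn]; exact h3)
      unfold cc at h1 ⊢
      rw [kk_piece_minNF h hT hun hC hf hn h3, ← card_some' hn]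
      exact h1
  -- a minimal nonface without `none` does not split any other one
  have hone : ∀ f g : Finset (Option {v // v ∈ C}), MinNF (Chrom.piece A T C) f →
      MinNF (Chrom.piece A T C) g → 3 ≤ f.card → 3 ≤ g.card → Disjoint f g → none ∉ f →
      (meetComps (gr (Chrom.piece A T C)) f g).card ≤ 1 := by
    intro f g hf hg hf3 hg3 hd hn
    have hS := minNF_piece_out hf hn
    have hS3 : 3 ≤ (some' f).card := by rw [card_some' hn]; exact hf3
    have hreach : ∀ x y : V, (del (gr A) (some' f)).Reachable x y →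
        (del (gr (Chrom.piece A T C)) f).Reachable (pproj C x) (pproj C y) :=
      fun x y hxy => reachable_map (fun u v huv => reach_pproj h hC hn huv) hxy
    have hsome : Disjoint (some' f) (some' g) := by
      rw [Finset.disjoint_left]
      intro x hx hx'
      obtain ⟨h1, h2⟩ := mem_some'.1 hx
      obtain ⟨_, h4⟩ := mem_some'.1 hx'
      exact Finset.disjoint_left.1 hd h2 h4
    refine meet_le_of_reachable ?_
    by_cases hn' : none ∈ g
    · obtain ⟨k, hk, hks, hsub, hint, hk3⟩ := exists_lift hT.face h hg hn' hg3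
      have hdk : Disjoint (some' f) k := by
        rw [Finset.disjoint_left]
        intro x hx hx'
        rcases mem_union.1 (hks hx') with h' | h'
        · exact Finset.disjoint_left.1 (comps_disjoint_S hC) (some'_subset hx) h'
        · exact Finset.disjoint_left.1 hsome hx h'
      have hle := h.nocross _ _ hS hk hS3 hk3 hdk
      obtain ⟨t, ht⟩ := hint
      rw [mem_inter] at ht
      have htC : t ∉ C := fun hh => Finset.disjoint_left.1 (comps_disjoint_S hC) hh ht.1
      have key : ∀ p ∈ g, ∃ x ∈ k, pproj C x = p := by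
        rintro (_ | x) hp
        · exact ⟨t, ht.2, pproj_not_mem htC⟩
        · exact ⟨x, hsub (mem_some'.2 ⟨x.2, hp⟩), pproj_coe x⟩
      intro p hp q hq
      obtain ⟨x, hx, rfl⟩ := key p hp
      obtain ⟨y, hy, rfl⟩ := key q hq
      exact hreach x y (reachable_of_meet_le hdk hle hx hy)
    · have hS' := minNF_piece_out hg hn'
      have hS3' : 3 ≤ (some' g).card := by rw [card_some' hn']; exact hg3
      have hle := h.nocross _ _ hS hS' hS3 hS3' hsome
      have key : ∀ p ∈ g, ∃ x ∈ some' g, pproj C x = p := by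
        rintro (_ | x) hp
        · exact absurd hp hn'
        · exact ⟨x, mem_some'.2 ⟨x.2, hp⟩, pproj_coe x⟩
      intro p hp q hq
      obtain ⟨x, hx, rfl⟩ := key p hp
      obtain ⟨y, hy, rfl⟩ := key q hq
      exact hreach x y (reachable_of_meet_le hsome hle hx hy)
  refine ⟨hdown, ?_, ?_, hconn, hface, hnonface, ?_⟩
  · rintro (_ | v)
    · rw [piece_in (by simp)]
      have : some' ({none} : Finset (Option {v // v ∈ C})) = ∅ := by
        ext v; simp [mem_some']
      rw [this, union_empty]
      exact hT.face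
    · rw [piece_out (by simp)]
      have : some' ({some v} : Finset (Option {v // v ∈ C})) = {v.1} := by
        ext w
        rw [mem_some']
        simp only [mem_singleton, Option.some.injEq]
        constructor
        · rintro ⟨_, rfl⟩; rfl
        · rintro rfl; exact ⟨v.2, rfl⟩
      rw [this]
      exact h.sing v
  · rw [Fintype.card_option]
    have : 0 < Fintype.card {v // v ∈ C} := Fintype.card_pos_iff.2 ⟨⟨c0, hc0⟩⟩
    omega
  · intro f g hf hg hf3 hg3 hd
    by_cases hn : none ∈ f
    · have hn' : none ∉ g := fun h' => Finset.disjoint_left.1 hd hn h'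
      by_contra hlt
      have h1 := hone g f hg hf hg3 hf3 hd.symm hn'
      have h2 := cross_mutual hconn hd (card_pos.1 (by omega)) (hnonface g hg hg3)
        (fun X hX hne => hface X (hg.2 X hX) hne) (by omega)
      omega
    · exact hone f g hf hg hf3 hg3 hd hn

end Pool.Agent.Chrom
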