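import Pool.Agent.Lib_helper88.Chrom.Comps

/-!
# Components of `G - S`: recognition, adding and removing vertices, supermodularity
-/

open Finset

namespace Pool.Agent.Chrom

variable {V : Type*} [Fintype V] [DecidableEq V]

set_option linter.unusedSectionVars false

variable {G : SimpleGraph V} {S T C D X : Finset V} {u v w : V}

/-- `C` is nonempty and connected (all walks inside `C`) -/
def Conn (G : SimpleGraph V) (C : Finset V) : Prop :=
  C.Nonempty ∧ ∀ u ∈ C, ∀ v ∈ C, (del G (univ \ C)).Reachable u v

/-- the neighbours of `C` outside `C` lie in `S` -/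
def Closed (G : SimpleGraph V) (S C : Finset V) : Prop :=
  ∀ u ∈ C, ∀ v, G.Adj u v → v ∉ S → v ∈ C

lemma del_mono (h : S ⊆ T) : del G T ≤ del G S := by
  intro u v huv
  exact ⟨huv.1, fun hu => huv.2.1 (h hu), fun hv => huv.2.2 (h hv)⟩

/-- walks which start in a closed set stay inside it -/
lemma reachable_closed (hcl : Closed G S C) (hu : u ∈ C) (h : (del G S).Reachable u v) :
    v ∈ C ∧ (del G (univ \ C)).Reachable u v := by
  obtain ⟨p⟩ := h
  induction p with
  | nil => exact ⟨hu, SimpleGraph.Reachable.refl _⟩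
  | @cons a b c hab p ih =>
    have hb : b ∈ C := hcl a hu b hab.1 hab.2.2
    obtain ⟨h1, h2⟩ := ih hb
    refine ⟨h1, SimpleGraph.Reachable.trans (SimpleGraph.Adj.reachable ?_) h2⟩
    exact ⟨hab.1, by simp [hu], by simp [hb]⟩

lemma comps_Closed (hC : C ∈ comps G S) : Closed G S C := fun _ hu _ huv hv =>
  comps_closed hC hu huv hv

lemma comps_conn (hC : C ∈ comps G S) : Conn G C := by
  refine ⟨comps_nonempty hC, fun u hu v hv => ?_⟩
  have h : (del G S).Reachable u v := by
    rw [← mem_comp, comp_eq_of_mem_comps hC hu]; exact hv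
  exact (reachable_closed (comps_Closed hC) hu h).2

/-- **characterisation of the components of `G - S`** -/
lemma mem_comps_iff : C ∈ comps G S ↔ Conn G C ∧ Disjoint C S ∧ Closed G S C := by
  constructor
  · intro h
    exact ⟨comps_conn h, comps_disjoint_S h, comps_Closed h⟩
  · rintro ⟨⟨⟨v, hv⟩, hconn⟩, hd, hcl⟩
    have hvS : v ∉ S := Finset.disjoint_left.1 hd hv
    refine mem_comps.2 ⟨v, hvS, ?_⟩
    ext w
    rw [mem_comp]
    constructor
    · intro h
      exact (reachable_closed hcl hv h).1
    · intro hw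
      refine (hconn v hv w hw).mono (del_mono ?_)
      intro x hx
      simp only [mem_sdiff, mem_univ, true_and]
      exact fun hxC => Finset.disjoint_left.1 hd hxC hx

/-- two components which meet are equal -/
lemma comps_eq_of_mem (hC : C ∈ comps G S) (hD : D ∈ comps G S) (hv : v ∈ C) (hv' : v ∈ D) :
    C = D := (comp_eq_of_mem_comps hC hv).symm.trans (comp_eq_of_mem_comps hD hv')

/-- a component of `G - T` which avoids `S` and all whose neighbours lie in `S` -/
lemma comps_of_comps (hC : C ∈ comps G S) (hd : Disjoint C T)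
    (hN : ∀ u ∈ C, ∀ v, G.Adj u v → v ∉ C → v ∈ T) : C ∈ comps G T := by
  rw [mem_comps_iff]
  refine ⟨comps_conn hC, hd, fun u hu v huv hv => ?_⟩
  by_contra h
  exact hv (hN u hu v huv h)

/-- **recognition**: a partition of `V \ S` into connected sets without edges between them -/
lemma comps_eq_of (P : Finset (Finset V)) (hP : ∀ C ∈ P, Conn G C) (hPS : ∀ C ∈ P, Disjoint C S)
    (hcl : ∀ C ∈ P, Closed G S C) (hcov : ∀ v, v ∉ S → ∃ C ∈ P, v ∈ C) : comps G S = P := by
  ext C
  constructor
  · intro hC
    obtain ⟨v, hv⟩ := comps_nonempty hC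
    obtain ⟨D, hD, hvD⟩ := hcov v (Finset.disjoint_left.1 (comps_disjoint_S hC) hv)
    have hD' : D ∈ comps G S := mem_comps_iff.2 ⟨hP D hD, hPS D hD, hcl D hD⟩
    rwa [comps_eq_of_mem hC hD' hv hvD]
  · intro hC
    exact mem_comps_iff.2 ⟨hP C hC, hPS C hC, hcl C hC⟩

/-- a connected set avoiding `S` lies in one component -/
lemma conn_subset_comp (hC : Conn G C) (hd : Disjoint C S) (hv : v ∈ C) : C ⊆ comp G S v := by
  intro w hw
  rw [mem_comp]
  refine (hC.2 v hv w hw).mono (del_mono ?_)
  intro x hx
  simp only [mem_sdiff, mem_univ, true_and]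
  exact fun hxC => Finset.disjoint_left.1 hd hxC hx

lemma exists_comps_of_conn (hC : Conn G C) (hd : Disjoint C S) : ∃ D ∈ comps G S, C ⊆ D := by
  obtain ⟨v, hv⟩ := hC.1
  exact ⟨comp G S v, comp_mem_comps (Finset.disjoint_left.1 hd hv), conn_subset_comp hC hd hv⟩

lemma comp_anti (h : S ⊆ T) (v : V) : comp G T v ⊆ comp G S v := by
  intro w hw
  rw [mem_comp] at hw ⊢
  exact hw.mono (del_mono h)

/-- a component of `G - T` lies in a component of `G - S` when `S ⊆ T` -/
lemma exists_comps_superset (h : S ⊆ T) (hC : C ∈ comps G T) : ∃ D ∈ comps G S, C ⊆ D := by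
  refine exists_comps_of_conn (comps_conn hC) ?_
  exact Finset.disjoint_of_subset_right h (comps_disjoint_S hC)

/-- a component of `G - T` which meets a component of `G - S`, `S ⊆ T`, lies inside it -/
lemma subset_of_mem (h : S ⊆ T) (hC : C ∈ comps G T) (hD : D ∈ comps G S) (hv : v ∈ C)
    (hv' : v ∈ D) : C ⊆ D := by
  obtain ⟨D', hD', hCD'⟩ := exists_comps_superset h hC
  rwa [comps_eq_of_mem hD hD' hv' (hCD' hv)]

/-! ### adding one connected piece -/

/-- union of two connected sets joined by an edge or by a common vertex -/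
lemma Conn.union_of_adj (hC : Conn G C) (hD : Conn G D) (hu : u ∈ C) (hv : v ∈ D)
    (huv : G.Adj u v) : Conn G (C ∪ D) := by
  have h1 : del G (univ \ C) ≤ del G (univ \ (C ∪ D)) :=
    del_mono (sdiff_subset_sdiff (Subset.refl _) subset_union_left)
  have h2 : del G (univ \ D) ≤ del G (univ \ (C ∪ D)) :=
    del_mono (sdiff_subset_sdiff (Subset.refl _) subset_union_right)
  have key : ∀ x ∈ C ∪ D, (del G (univ \ (C ∪ D))).Reachable u x := by
    intro x hx
    rcases mem_union.1 hx with hx | hx
    · exact (hC.2 u hu x hx).mono h1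
    · refine SimpleGraph.Reachable.trans (SimpleGraph.Adj.reachable ?_) ((hD.2 v hv x hx).mono h2)
      exact ⟨huv, by simp [hu], by simp [hv]⟩
  refine ⟨hC.1.mono subset_union_left, fun x hx y hy => ?_⟩
  exact (key x hx).symm.trans (key y hy)

lemma conn_singleton (v : V) : Conn G {v} := by
  refine ⟨⟨v, mem_singleton_self v⟩, fun x hx y hy => ?_⟩
  rw [mem_singleton] at hx hy
  subst hx; subst hy
  exact SimpleGraph.Reachable.refl _

/-- the components of `G - S` that contain a neighbour of `x` -/
noncomputable def adjComps (G : SimpleGraph V) (S : Finset V) (x : V) : Finset (Finset V) := by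
  classical exact (comps G S).filter fun C => ∃ v ∈ C, G.Adj x v

lemma mem_adjComps {x : V} : C ∈ adjComps G S x ↔ C ∈ comps G S ∧ ∃ v ∈ C, G.Adj x v := by
  unfold adjComps
  simp

/-- the components of `G - S` that contain no neighbour of `X` -/
noncomputable def farComps (G : SimpleGraph V) (S X : Finset V) : Finset (Finset V) := by
  classical exact (comps G S).filter fun C => ∀ x ∈ X, ∀ v ∈ C, ¬ G.Adj x v

lemma mem_farComps : C ∈ farComps G S X ↔ C ∈ comps G S ∧ ∀ x ∈ X, ∀ v ∈ C, ¬ G.Adj x v := by
  unfold farComps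
  simp

/-- the components of `G - S` that contain a neighbour of `X` -/
noncomputable def nearComps (G : SimpleGraph V) (S X : Finset V) : Finset (Finset V) := by
  classical exact (comps G S).filter fun C => ∃ x ∈ X, ∃ v ∈ C, G.Adj x v

lemma mem_nearComps : C ∈ nearComps G S X ↔ C ∈ comps G S ∧ ∃ x ∈ X, ∃ v ∈ C, G.Adj x v := by
  unfold nearComps
  simp

lemma card_far_add_near : (farComps G S X).card + (nearComps G S X).card = kk G S := by
  classical
  unfold farComps nearComps kk
  have h := Finset.card_filter_add_card_filter_not (s := comps G S)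
    (fun C => ∀ x ∈ X, ∀ v ∈ C, ¬ G.Adj x v)
  rw [← h]
  congr 2
  ext C
  simp only [mem_filter]
  constructor
  · rintro ⟨h1, x, hx, v, hv, hxv⟩
    exact ⟨h1, fun h2 => h2 x hx v hv hxv⟩
  · rintro ⟨h1, h2⟩
    refine ⟨h1, ?_⟩
    by_contra h3
    exact h2 fun x hx v hv hxv => h3 ⟨x, hx, v, hv, hxv⟩

lemma nearComps_singleton (x : V) : nearComps G S {x} = adjComps G S x := by
  ext C; rw [mem_nearComps, mem_adjComps]; simp

/-- the components of `G - S` that meet `X` -/
noncomputable def meetComps (G : SimpleGraph V) (S X : Finset V) : Finset (Finset V) := by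
  classical exact (comps G S).filter fun C => ¬ Disjoint C X

lemma mem_meetComps : C ∈ meetComps G S X ↔ C ∈ comps G S ∧ ¬ Disjoint C X := by
  unfold meetComps
  simp

/-- the components of `G - (S \ X)` which avoid `X` are the components of `G - S` far from `X` -/
lemma comps_sdiff_filter (hX : X ⊆ S) :
    ((comps G (S \ X)).filter fun C => Disjoint C X) = farComps G S X := by
  classical
  ext C
  rw [mem_filter, mem_farComps]
  constructor
  · rintro ⟨hC, hd⟩
    have hfar : ∀ x ∈ X, ∀ v ∈ C, ¬ G.Adj x v := by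
      intro x hx v hv hxv
      have hx' : x ∈ C := comps_closed hC hv hxv.symm (by simp [hx])
      exact Finset.disjoint_left.1 hd hx' hx
    refine ⟨?_, hfar⟩
    rw [mem_comps_iff]
    refine ⟨comps_conn hC, ?_, ?_⟩
    · rw [Finset.disjoint_left]
      intro v hv hvS
      by_cases hvX : v ∈ X
      · exact Finset.disjoint_left.1 hd hv hvX
      · exact Finset.disjoint_left.1 (comps_disjoint_S hC) hv (mem_sdiff.2 ⟨hvS, hvX⟩)
    · intro u hu v huv hv
      exact comps_closed hC hu huv fun h => hv (mem_sdiff.1 h).1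
  · rintro ⟨hC, hfar⟩
    have hd : Disjoint C X := Finset.disjoint_of_subset_right hX (comps_disjoint_S hC)
    refine ⟨?_, hd⟩
    rw [mem_comps_iff]
    refine ⟨comps_conn hC, Finset.disjoint_of_subset_right sdiff_subset (comps_disjoint_S hC), ?_⟩
    intro u hu v huv hv
    by_cases hvX : v ∈ X
    · exact absurd huv.symm (hfar v hvX u hu)
    · exact comps_closed hC hu huv fun h => hv (mem_sdiff.2 ⟨h, hvX⟩)

/-- **removing `X` from the deleted set**: exact count -/
lemma kk_sdiff (hX : X ⊆ S) :
    kk G (S \ X) = (farComps G S X).card + (meetComps G (S \ X) X).card := by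
  classical
  rw [← comps_sdiff_filter hX]
  unfold kk meetComps
  exact (Finset.card_filter_add_card_filter_not (s := comps G (S \ X))
    (fun C => Disjoint C X)).symm

lemma kk_sdiff_add_near (hX : X ⊆ S) :
    kk G (S \ X) + (nearComps G S X).card = kk G S + (meetComps G (S \ X) X).card := by
  rw [kk_sdiff hX, ← card_far_add_near (S := S) (X := X)]; ring

/-- the components meeting `X` are at most `|X|` many -/
lemma card_meetComps_le : (meetComps G S X).card ≤ X.card := by
  classical
  have h : meetComps G S X ⊆ X.image (comp G S) := by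
    intro C hC
    obtain ⟨hC, hd⟩ := mem_meetComps.1 hC
    rw [Finset.not_disjoint_iff] at hd
    obtain ⟨v, hv, hvX⟩ := hd
    exact mem_image.2 ⟨v, hvX, comp_eq_of_mem_comps hC hv⟩
  exact (card_le_card h).trans card_image_le

lemma card_meetComps_pos (hX : ∃ x ∈ X, x ∉ S) : 0 < (meetComps G S X).card := by
  obtain ⟨x, hx, hxS⟩ := hX
  rw [card_pos]
  refine ⟨comp G S x, mem_meetComps.2 ⟨comp_mem_comps hxS, ?_⟩⟩
  rw [Finset.not_disjoint_iff]
  exact ⟨x, self_mem_comp x, hx⟩

/-- `k(G - (S \ X)) + near(X) ≤ k(G - S) + |X|` -/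
lemma kk_sdiff_le (hX : X ⊆ S) :
    kk G (S \ X) + (nearComps G S X).card ≤ kk G S + X.card := by
  rw [kk_sdiff_add_near hX]
  exact Nat.add_le_add_left card_meetComps_le _

/-- `k(G - (S \ X)) + near(X) ≥ k(G - S) + 1` -/
lemma le_kk_sdiff (hX : X ⊆ S) (hne : X.Nonempty) :
    kk G S + 1 ≤ kk G (S \ X) + (nearComps G S X).card := by
  rw [kk_sdiff_add_near hX]
  obtain ⟨x, hx⟩ := hne
  exact Nat.add_le_add_left (card_meetComps_pos ⟨x, hx, by simp [hx]⟩) _

/-- **removing one vertex from the deleted set** -/
lemma kk_erase (hx : v ∈ S) : kk G (S.erase v) + (adjComps G S v).card = kk G S + 1 := by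
  have h1 := kk_sdiff_le (G := G) (singleton_subset_iff.2 hx)
  have h2 := le_kk_sdiff (G := G) (singleton_subset_iff.2 hx) (singleton_nonempty v)
  rw [nearComps_singleton, sdiff_singleton_eq_erase, card_singleton] at h1
  rw [nearComps_singleton, sdiff_singleton_eq_erase] at h2
  omega

/-- **adding one vertex to the deleted set** -/
lemma kk_insert (hx : v ∉ S) :
    kk G S + (adjComps G (insert v S) v).card = kk G (insert v S) + 1 := by
  have h := kk_erase (G := G) (S := insert v S) (v := v) (mem_insert_self v S)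
  rwa [erase_insert hx] at h

/-- the number of pieces at `v` grows with the deleted set as long as neighbours of `v` stay -/
lemma card_adjComps_mono (hST : S ⊆ T) (hv : ∀ w ∈ T, w ∉ S → ¬ G.Adj v w) :
    (adjComps G S v).card ≤ (adjComps G T v).card := by
  classical
  have : Nonempty V := ⟨v⟩
  have hch : ∀ C ∈ adjComps G S v, ∃ w ∈ C, G.Adj v w := fun C hC => (mem_adjComps.1 hC).2
  choose! g hg1 hg2 using hch
  have hgT : ∀ C ∈ adjComps G S v, g C ∉ T := by
    intro C hC hT
    have hS : g C ∉ S :=
      Finset.disjoint_left.1 (comps_disjoint_S (mem_adjComps.1 hC).1) (hg1 C hC)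
    exact hv _ hT hS (hg2 C hC)
  refine Finset.card_le_card_of_injOn (fun C => comp G T (g C)) ?_ ?_
  · intro C hC
    exact mem_adjComps.2 ⟨comp_mem_comps (hgT C hC), g C, self_mem_comp _, hg2 C hC⟩
  · intro C hC D hD h
    have hC' := (mem_adjComps.1 hC).1
    have hD' := (mem_adjComps.1 hD).1
    have h1 : g D ∈ comp G T (g C) := by
      have : comp G T (g C) = comp G T (g D) := h
      rw [this]; exact self_mem_comp _
    have h2 : g D ∈ C := by
      rw [← comp_eq_of_mem_comps hC' (hg1 C hC)]
      exact comp_anti hST _ h1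
    exact comps_eq_of_mem hC' hD' h2 (hg1 D hD)

/-- **supermodularity of `k(G - S)`** (only edges between `S \ T` and `T \ S` are excluded) -/
lemma kk_supermodular (h : ∀ u ∈ S \ T, ∀ v ∈ T \ S, ¬ G.Adj u v) :
    kk G S + kk G T ≤ kk G (S ∪ T) + kk G (S ∩ T) := by
  classical
  have key : ∀ R : Finset V, R ⊆ T \ S →
      kk G S + kk G (S ∩ T ∪ R) ≤ kk G (S ∪ R) + kk G (S ∩ T) := by
    intro R
    induction R using Finset.induction_on with
    | empty => intro _; simp
    | @insert x R hxR ih =>
      intro hR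
      have hx : x ∈ T \ S := hR (mem_insert_self x R)
      have hR' : R ⊆ T \ S := (subset_insert x R).trans hR
      have ih' := ih hR'
      have hxS : x ∉ S := (mem_sdiff.1 hx).2
      have e1 : S ∩ T ∪ insert x R = insert x (S ∩ T ∪ R) := by
        ext y; simp only [mem_union, mem_insert]; tauto
      have e2 : S ∪ insert x R = insert x (S ∪ R) := by
        ext y; simp only [mem_union, mem_insert]; tauto
      have hx1 : x ∉ S ∩ T ∪ R := by
        simp only [mem_union, mem_inter, not_or, not_and]
        exact ⟨fun h => absurd h hxS, hxR⟩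
      have hx2 : x ∉ S ∪ R := by
        simp only [mem_union, not_or]; exact ⟨hxS, hxR⟩
      have k1 := kk_insert (G := G) hx1
      have k2 := kk_insert (G := G) hx2
      have hm : (adjComps G (insert x (S ∩ T ∪ R)) x).card ≤
          (adjComps G (insert x (S ∪ R)) x).card := by
        refine card_adjComps_mono ?_ ?_
        · intro y hy
          simp only [mem_insert, mem_union, mem_inter] at hy ⊢
          tauto
        · intro w hw hw' hadj
          simp only [mem_insert, mem_union, mem_inter] at hw hw'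
          have hwS : w ∈ S \ T := by
            rw [mem_sdiff]; constructor <;> tauto
          exact h w hwS x hx hadj.symm
      rw [e1, e2]
      omega
  have := key (T \ S) (Subset.refl _)
  have e1 : S ∩ T ∪ T \ S = T := by
    ext y; simp only [mem_union, mem_inter, mem_sdiff]; tauto
  have e2 : S ∪ T \ S = S ∪ T := by
    ext y; simp only [mem_union, mem_sdiff]; tauto
  rwa [e1, e2] at this

/-- **supermodularity of `c`** -/
lemma cc_supermodular (h : ∀ u ∈ S \ T, ∀ v ∈ T \ S, ¬ G.Adj u v) :
    cc G S + cc G T ≤ cc G (S ∪ T) + cc G (S ∩ T) := by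
  have h1 := kk_supermodular h
  have h2 := card_union_add_card_inter S T
  unfold cc
  have h3 : (kk G S : ℤ) + kk G T ≤ kk G (S ∪ T) + kk G (S ∩ T) := by exact_mod_cast h1
  have h4 : ((S ∪ T).card : ℤ) + (S ∩ T).card = S.card + T.card := by exact_mod_cast h2
  linarith

/-! ### counting as in the frozen statement -/

lemma val_not_mem (v : ((S : Set V)ᶜ : Set V)) : v.1 ∉ S := fun h => v.2 (by exact_mod_cast h)

lemma induce_reachable_of_del {u v : V} (h : (del G S).Reachable u v) (hu : u ∉ S) (hv : v ∉ S) :
    (G.induce ((S : Set V)ᶜ)).Reachable ⟨u, by simpa using hu⟩ ⟨v, by simpa using hv⟩ := by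
  obtain ⟨p⟩ := h
  induction p with
  | nil => exact SimpleGraph.Reachable.refl _
  | @cons a b c hab p ih =>
    refine SimpleGraph.Reachable.trans (SimpleGraph.Adj.reachable ?_) (ih hab.2.2 hv)
    exact hab.1

lemma del_reachable_of_induce {u v : ((S : Set V)ᶜ : Set V)}
    (h : (G.induce ((S : Set V)ᶜ)).Reachable u v) : (del G S).Reachable u.1 v.1 := by
  obtain ⟨p⟩ := h
  induction p with
  | nil => exact SimpleGraph.Reachable.refl _
  | @cons a b c hab p ih =>
    refine SimpleGraph.Reachable.trans (SimpleGraph.Adj.reachable ?_) ih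
    exact ⟨hab, val_not_mem a, val_not_mem b⟩

/-- `kk G S` is the number of components of the induced graph on the complement of `S` -/
lemma kk_eq_card : kk G S = Nat.card (G.induce ((S : Set V)ᶜ)).ConnectedComponent := by
  classical
  have e : (comps G S : Finset (Finset V)) ≃ (G.induce ((S : Set V)ᶜ)).ConnectedComponent := by
    refine (Equiv.ofBijective (fun c : (G.induce ((S : Set V)ᶜ)).ConnectedComponent =>
      (⟨SimpleGraph.ConnectedComponent.lift (fun v => comp G S v.1) ?_ c, ?_⟩ :
        {C // C ∈ comps G S})) ?_).symm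
    · intro v w p _
      exact (comp_eq_of_mem (mem_comp.2 (del_reachable_of_induce ⟨p⟩))).symm
    · induction c using SimpleGraph.ConnectedComponent.ind with
      | _ v => exact comp_mem_comps (val_not_mem v)
    · constructor
      · intro c d h
        induction c using SimpleGraph.ConnectedComponent.ind with
        | _ v =>
          induction d using SimpleGraph.ConnectedComponent.ind with
          | _ w =>
            rw [SimpleGraph.ConnectedComponent.eq]
            have h' : comp G S v.1 = comp G S w.1 := congrArg Subtype.val h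
            have h2 : w.1 ∈ comp G S v.1 := by rw [h']; exact self_mem_comp _
            exact induce_reachable_of_del (mem_comp.1 h2) (val_not_mem v) (val_not_mem w)
      · rintro ⟨C, hC⟩
        obtain ⟨v, hv, rfl⟩ := mem_comps.1 hC
        exact ⟨(G.induce ((S : Set V)ᶜ)).connectedComponentMk ⟨v, by simpa using hv⟩, rfl⟩
  rw [← Nat.card_congr e, Nat.card_eq_fintype_card, Fintype.card_coe]
  rfl

lemma kk_univ : kk G univ = 0 := by
  simp [kk, comps]

lemma kk_pos (h : ∃ v, v ∉ S) : 0 < kk G S := by
  obtain ⟨v, hv⟩ := h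
  exact card_pos.2 ⟨_, comp_mem_comps hv⟩

lemma kk_empty_eq_one (hG : G.Connected) : kk G ∅ = 1 := by
  classical
  obtain ⟨v⟩ := hG.nonempty
  unfold kk
  rw [card_eq_one]
  refine ⟨univ, ?_⟩
  refine comps_eq_of {univ} ?_ ?_ ?_ ?_
  · intro C hC
    rw [mem_singleton] at hC
    subst hC
    refine ⟨⟨v, mem_univ v⟩, fun x _ y _ => ?_⟩
    have hle : G ≤ del G (univ \ univ) := by
      intro a b hab
      exact ⟨hab, by simp, by simp⟩
    exact (hG.preconnected x y).mono hle
  · intro C _; exact disjoint_empty_right C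
  · intro C hC
    rw [mem_singleton] at hC
    subst hC
    intro u _ v _ _
    exact mem_univ v
  · intro v _
    exact ⟨univ, mem_singleton_self _, mem_univ v⟩

/-! ### components of `G - (D ∪ X)` inside the components of `G - D` -/

/-- the components of `G - T` inside `C` -/
noncomputable def inComps (G : SimpleGraph V) (T C : Finset V) : Finset (Finset V) := by
  classical exact (comps G T).filter fun C' => C' ⊆ C

lemma mem_inComps {C' : Finset V} : C' ∈ inComps G T C ↔ C' ∈ comps G T ∧ C' ⊆ C := by
  unfold inComps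
  simp

lemma inComps_disjoint {C' : Finset V} (h : Disjoint C C') :
    Disjoint (inComps G T C) (inComps G T C') := by
  rw [Finset.disjoint_left]
  intro E hE hE'
  obtain ⟨hE1, hE2⟩ := mem_inComps.1 hE
  obtain ⟨_, hE3⟩ := mem_inComps.1 hE'
  obtain ⟨v, hv⟩ := comps_nonempty hE1
  exact Finset.disjoint_left.1 h (hE2 hv) (hE3 hv)

/-- the components of `G - T` are distributed over the components of `G - D`, `D ⊆ T` -/
lemma comps_eq_biUnion (h : D ⊆ T) : comps G T = (comps G D).biUnion (inComps G T) := by
  ext C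
  rw [mem_biUnion]
  constructor
  · intro hC
    obtain ⟨E, hE, hCE⟩ := exists_comps_superset h hC
    exact ⟨E, hE, mem_inComps.2 ⟨hC, hCE⟩⟩
  · rintro ⟨E, -, hC⟩
    exact (mem_inComps.1 hC).1

lemma kk_eq_sum (h : D ⊆ T) : kk G T = ∑ C ∈ comps G D, (inComps G T C).card := by
  unfold kk
  rw [comps_eq_biUnion h, card_biUnion]
  intro C hC C' hC' hne
  exact inComps_disjoint (comps_disjoint hC hC' hne)

/-- inside a component `C` of `G - D` only the part of the deleted set in `C` matters -/
lemma inComps_congr {T' : Finset V} (hC : C ∈ comps G D) (h : D ⊆ T) (h' : D ⊆ T')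
    (hTT : T ∩ C = T' ∩ C) : inComps G T C = inComps G T' C := by
  have aux : ∀ T₁ T₂ : Finset V, D ⊆ T₁ → D ⊆ T₂ → T₁ ∩ C = T₂ ∩ C →
      inComps G T₁ C ⊆ inComps G T₂ C := by
    intro T₁ T₂ _ h2 h12 E hE
    obtain ⟨hE1, hE2⟩ := mem_inComps.1 hE
    refine mem_inComps.2 ⟨?_, hE2⟩
    refine comps_of_comps hE1 ?_ ?_
    · rw [Finset.disjoint_left]
      intro v hv hv2
      have : v ∈ T₁ ∩ C := by rw [h12]; exact mem_inter.2 ⟨hv2, hE2 hv⟩
      exact Finset.disjoint_left.1 (comps_disjoint_S hE1) hv (mem_inter.1 this).1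
    · intro u hu v huv hvE
      have hvT1 : v ∈ T₁ := by
        by_contra hv
        exact hvE (comps_closed hE1 hu huv hv)
      by_cases hvD : v ∈ D
      · exact h2 hvD
      · have hvC : v ∈ C := comps_closed hC (hE2 hu) huv hvD
        have : v ∈ T₂ ∩ C := by rw [← h12]; exact mem_inter.2 ⟨hvT1, hvC⟩
        exact (mem_inter.1 this).1
  exact Subset.antisymm (aux T T' h h' hTT) (aux T' T h' h hTT.symm)

/-- a component `C` of `G - D` which is not touched by `T` is a component of `G - T` -/
lemma inComps_of_disjoint (hC : C ∈ comps G D) (h : D ⊆ T) (hd : Disjoint C T) :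
    inComps G T C = {C} := by
  have h1 : inComps G T C = inComps G D C := by
    refine inComps_congr hC h (Subset.refl D) ?_
    rw [inter_comm, disjoint_iff_inter_eq_empty.1 hd, inter_comm,
      disjoint_iff_inter_eq_empty.1 (comps_disjoint_S hC)]
  rw [h1]
  ext E
  rw [mem_inComps, mem_singleton]
  constructor
  · rintro ⟨hE, hEC⟩
    obtain ⟨v, hv⟩ := comps_nonempty hE
    exact comps_eq_of_mem hE hC hv (hEC hv)
  · rintro rfl
    exact ⟨hC, Subset.refl _⟩

/-- deleting in addition a set inside one component -/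
lemma kk_union_of_subset (hC : C ∈ comps G D) (hX : X ⊆ C) :
    kk G (D ∪ X) + 1 = kk G D + (inComps G (D ∪ X) C).card := by
  classical
  have h := kk_eq_sum (G := G) (subset_union_left : D ⊆ D ∪ X)
  rw [← Finset.add_sum_erase _ _ hC] at h
  have h2 : ∑ E ∈ (comps G D).erase C, (inComps G (D ∪ X) E).card = ((comps G D).erase C).card := by
    rw [card_eq_sum_ones]
    refine sum_congr rfl fun E hE => ?_
    obtain ⟨hne, hE'⟩ := mem_erase.1 hE
    rw [inComps_of_disjoint hE' subset_union_left, card_singleton]
    rw [disjoint_union_right]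
    exact ⟨comps_disjoint_S hE', (comps_disjoint hE' hC hne).mono_right hX⟩
  rw [h2, card_erase_of_mem hC] at h
  have h3 : 0 < (comps G D).card := card_pos.2 ⟨C, hC⟩
  unfold kk at h ⊢
  omega

/-- **additivity over the components of `G - D`**, counting form -/
lemma kk_union_eq :
    (kk G (D ∪ X) : ℤ) - kk G D =
      ∑ C ∈ comps G D, ((kk G (D ∪ (X ∩ C)) : ℤ) - kk G D) := by
  classical
  have h := kk_eq_sum (G := G) (subset_union_left : D ⊆ D ∪ X)
  have h1 : ∀ C ∈ comps G D, ((kk G (D ∪ (X ∩ C)) : ℤ) - kk G D) =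
      (inComps G (D ∪ X) C).card - 1 := by
    intro C hC
    have h2 := kk_union_of_subset hC (inter_subset_right : X ∩ C ⊆ C)
    have h3 : inComps G (D ∪ (X ∩ C)) C = inComps G (D ∪ X) C := by
      refine inComps_congr hC subset_union_left subset_union_left ?_
      ext v
      simp only [mem_inter, mem_union]
      tauto
    rw [h3] at h2
    have h4 : (kk G (D ∪ (X ∩ C)) : ℤ) + 1 = kk G D + (inComps G (D ∪ X) C).card := by
      exact_mod_cast h2
    linarith
  rw [sum_congr rfl h1, sum_sub_distrib, h]
  push_cast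
  have h5 : (kk G D : ℤ) = ∑ _C ∈ comps G D, (1 : ℤ) := by
    simp [kk]
  rw [h5]

/-- `X` disjoint from `D` is the union of its parts in the components of `G - D` -/
lemma card_eq_sum_inter (hd : Disjoint D X) : X.card = ∑ C ∈ comps G D, (X ∩ C).card := by
  classical
  rw [← card_biUnion]
  · congr 1
    ext v
    rw [mem_biUnion]
    constructor
    · intro hv
      obtain ⟨C, hC, hvC⟩ := exists_comps (G := G) (Finset.disjoint_right.1 hd hv)
      exact ⟨C, hC, mem_inter.2 ⟨hv, hvC⟩⟩
    · rintro ⟨C, -, hv⟩
      exact (mem_inter.1 hv).1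
  · intro C hC C' hC' hne
    exact (comps_disjoint hC hC' hne).mono inter_subset_right inter_subset_right

/-- **additivity of `c` over the components of `G - D`** -/
lemma cc_union_eq (hd : Disjoint D X) :
    cc G (D ∪ X) - cc G D = ∑ C ∈ comps G D, (cc G (D ∪ (X ∩ C)) - cc G D) := by
  classical
  have h1 := kk_union_eq (G := G) (D := D) (X := X)
  have h2 := card_eq_sum_inter (G := G) hd
  have h3 : ∀ C ∈ comps G D, (cc G (D ∪ (X ∩ C)) - cc G D) =
      ((kk G (D ∪ (X ∩ C)) : ℤ) - kk G D) - (X ∩ C).card := by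
    intro C _
    have h4 : (D ∪ (X ∩ C)).card = D.card + (X ∩ C).card :=
      card_union_of_disjoint (hd.mono_right inter_subset_left)
    unfold cc
    rw [h4]
    push_cast
    ring
  rw [sum_congr rfl h3, sum_sub_distrib, ← h1]
  have h5 : (X.card : ℤ) = ∑ C ∈ comps G D, ((X ∩ C).card : ℤ) := by exact_mod_cast h2
  rw [← h5]
  unfold cc
  rw [card_union_of_disjoint hd]
  push_cast
  ring

/-- for a tight set `D` the value `c(D ∪ X)` is the sum over the components of `G - D` -/
lemma cc_union_eq_of_tight (hd : Disjoint D X) (ht : cc G D = 0) :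
    cc G (D ∪ X) = ∑ C ∈ comps G D, cc G (D ∪ (X ∩ C)) := by
  have h := cc_union_eq (G := G) hd
  simpa [ht] using h

end Pool.Agent.Chrom
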